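import Mathlib

/-!
# Counting on two levels
-/

set_option autoImplicit false

namespace Pool.Agent.Helper478.Shift

open Finset

lemma two_level {α : Type} (O : Finset α) (exc : α → Prop) (p : α → ℤ → Prop) (H : ℕ) (K : ℝ)
    (hK : 0 ≤ K) (E : ℝ) (hE : ((({o : α | o ∈ O ∧ exc o}).ncard : ℕ) : ℝ) ≤ E)
    (h : ∀ o ∈ O, ¬ exc o → ((({c : ℤ | |(c : ℝ)| ≤ H ∧ p o c}).ncard : ℕ) : ℝ) ≤ K) :
    ((({t : α × ℤ | t.1 ∈ O ∧ |(t.2 : ℝ)| ≤ H ∧ p t.1 t.2}).ncard : ℕ) : ℝ) ≤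
      E * (2 * H + 1) + O.card * K := by
  classical
  have hI : ∀ c : ℤ, |(c : ℝ)| ≤ H ↔ c ∈ Finset.Icc (-(H : ℤ)) H := by
    intro c
    rw [Finset.mem_Icc, abs_le]
    constructor
    · rintro ⟨h1, h2⟩
      exact ⟨by exact_mod_cast h1, by exact_mod_cast h2⟩
    · rintro ⟨h1, h2⟩
      exact ⟨by exact_mod_cast h1, by exact_mod_cast h2⟩
  have e1 : {t : α × ℤ | t.1 ∈ O ∧ |(t.2 : ℝ)| ≤ H ∧ p t.1 t.2} =
      (((O ×ˢ Finset.Icc (-(H : ℤ)) H).filter fun t => p t.1 t.2 : Finset (α × ℤ)) : Set (α × ℤ)) := by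
    ext t
    simp only [Set.mem_setOf_eq, Finset.coe_filter, Finset.mem_product, hI]
    tauto
  have e2 : {o : α | o ∈ O ∧ exc o} = ((O.filter exc : Finset α) : Set α) := by
    ext t; simp
  rw [e2, Set.ncard_coe_finset] at hE
  have h' : ∀ o ∈ O, ¬ exc o → ((((Finset.Icc (-(H : ℤ)) H).filter fun c => p o c).card : ℕ) : ℝ) ≤ K := by
    intro o ho hexc
    have := h o ho hexc
    have e3 : {c : ℤ | |(c : ℝ)| ≤ H ∧ p o c} =
        (((Finset.Icc (-(H : ℤ)) H).filter fun c => p o c : Finset ℤ) : Set ℤ) := by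
      ext t; simp only [Set.mem_setOf_eq, Finset.coe_filter, hI]
    rwa [e3, Set.ncard_coe_finset] at this
  rw [e1, Set.ncard_coe_finset]
  have e4 : ((O ×ˢ Finset.Icc (-(H : ℤ)) H).filter fun t => p t.1 t.2).card =
      ∑ o ∈ O, ((Finset.Icc (-(H : ℤ)) H).filter fun c => p o c).card := by
    simp only [Finset.card_filter, Finset.sum_product]
  rw [e4]
  push_cast
  have h5 : ∀ o ∈ O, ((((Finset.Icc (-(H : ℤ)) H).filter fun c => p o c).card : ℕ) : ℝ) ≤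
      (if exc o then (2 * H + 1 : ℝ) else 0) + K := by
    intro o ho
    split_ifs with hexc
    · have h6 : ((Finset.Icc (-(H : ℤ)) H).filter fun c => p o c).card ≤ 2 * H + 1 := by
        refine (Finset.card_filter_le _ _).trans ?_
        rw [Int.card_Icc]
        omega
      have h7 : ((((Finset.Icc (-(H : ℤ)) H).filter fun c => p o c).card : ℕ) : ℝ) ≤ 2 * H + 1 := by
        exact_mod_cast h6
      linarith
    · rw [zero_add]
      exact h' o ho hexc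
  refine (Finset.sum_le_sum h5).trans ?_
  rw [Finset.sum_add_distrib, Finset.sum_const, nsmul_eq_mul, ← Finset.sum_filter, Finset.sum_const,
    nsmul_eq_mul]
  have h8 : (0 : ℝ) ≤ 2 * H + 1 := by positivity
  nlinarith

lemma card_box (H : ℕ) (hH : 1 ≤ H) : (((Finset.Icc (-(H : ℤ)) H).card : ℕ) : ℝ) ≤ 3 * H := by
  have h1 : (Finset.Icc (-(H : ℤ)) H).card = 2 * H + 1 := by
    rw [Int.card_Icc]; omega
  rw [h1]
  have : (1 : ℝ) ≤ H := by exact_mod_cast hH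
  push_cast; linarith

lemma card_small (T : ℝ) (hT : 1 ≤ T) (x : ℝ) : (({b : ℤ | |x + (b : ℝ)| < T}.ncard : ℕ) : ℝ) ≤ 3 * T := by
  have hsub : {b : ℤ | |x + (b : ℝ)| < T} ⊆ ((Finset.Icc ⌈-T - x⌉ ⌊T - x⌋ : Finset ℤ) : Set ℤ) := by
    intro b hb
    simp only [Set.mem_setOf_eq, abs_lt] at hb
    rw [Finset.mem_coe, Finset.mem_Icc]
    exact ⟨Int.ceil_le.2 (by linarith [hb.1]), Int.le_floor.2 (by linarith [hb.2])⟩
  have h1 := Set.ncard_le_ncard hsub (Finset.finite_toSet _)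
  rw [Set.ncard_coe_finset, Int.card_Icc] at h1
  have h2 : ((⌊T - x⌋ : ℤ) : ℝ) ≤ T - x := Int.floor_le _
  have h3 : -T - x ≤ ((⌈-T - x⌉ : ℤ) : ℝ) := Int.le_ceil _
  have h4 : (({b : ℤ | |x + (b : ℝ)| < T}.ncard : ℕ) : ℝ) ≤ ((⌊T - x⌋ + 1 - ⌈-T - x⌉).toNat : ℝ) := by
    exact_mod_cast h1
  refine h4.trans ?_
  rcases le_or_gt 0 (⌊T - x⌋ + 1 - ⌈-T - x⌉) with h5 | h5
  · have h6 : (((⌊T - x⌋ + 1 - ⌈-T - x⌉).toNat : ℤ) : ℝ) = ((⌊T - x⌋ + 1 - ⌈-T - x⌉ : ℤ) : ℝ) := by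
      rw [Int.toNat_of_nonneg h5]
    have h7 : ((⌊T - x⌋ + 1 - ⌈-T - x⌉).toNat : ℝ) = ((⌊T - x⌋ + 1 - ⌈-T - x⌉ : ℤ) : ℝ) := by
      rw [← h6]; push_cast; rfl
    rw [h7]
    push_cast
    linarith
  · rw [Int.toNat_of_nonpos h5.le]
    simp only [Nat.cast_zero]
    linarith

end Pool.Agent.Helper478.Shift
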