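import Pool.Agent.Helper478_Shift.Mob
import Pool.Agent.Helper478_Bases.EPi

/-!
# The digits of `x / (t + d)` for almost all integers `d`, uniformly in `x` and `t`
-/

set_option autoImplicit false

namespace Pool.Agent.Helper478.Shift

open Finset Filter Polynomial
open Pool.Agent.Helper478.Surds (ev_pow EquiW)
open Pool.Agent.Helper478.Bases (MeasW aeval_le)

/-- shifting the origin of the digits -/
lemma equiW_shift (y : ℝ) (r w u v : ℕ) (ε : ℝ) (hwu : w ≤ u) (huv : u ≤ v)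
    (h : EquiW (y * (r : ℝ) ^ w) r (u - w) (v - w) ε) : EquiW y r u v ε := by
  intro α β h1 h2 h3
  have h4 := h α β h1 h2 h3
  have e1 : {i : ℕ | u < i ∧ i ≤ v ∧ α ≤ Int.fract (y * (r : ℝ) ^ i) ∧
      Int.fract (y * (r : ℝ) ^ i) < β} = (fun j => w + j) '' {i : ℕ | u - w < i ∧ i ≤ v - w ∧
      α ≤ Int.fract (y * (r : ℝ) ^ w * (r : ℝ) ^ i) ∧
      Int.fract (y * (r : ℝ) ^ w * (r : ℝ) ^ i) < β} := by
    ext i
    constructor
    · rintro ⟨a1, a2, a3, a4⟩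
      refine ⟨i - w, ⟨by omega, by omega, ?_, ?_⟩, by simp only; omega⟩
      · rw [mul_assoc, ← pow_add, show w + (i - w) = i by omega]; exact a3
      · rw [mul_assoc, ← pow_add, show w + (i - w) = i by omega]; exact a4
    · rintro ⟨j, ⟨a1, a2, a3, a4⟩, rfl⟩
      rw [mul_assoc, ← pow_add] at a3 a4
      exact ⟨by simp only; omega, by simp only; omega, a3, a4⟩
  rw [e1, Set.ncard_image_of_injective _ (fun a b h => by simpa using h)]
  have e2 : ((v - w : ℕ) : ℝ) - ((u - w : ℕ) : ℝ) = v - u := by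
    rw [Nat.cast_sub hwu, Nat.cast_sub (hwu.trans huv)]; ring
  rw [e2] at h4
  exact h4

/-- `x / (t + d)` has a bad window far enough from the point -/
def BadX (H δ γ ε x z : ℝ) : Prop :=
  ∃ r u v : ℕ, 2 ≤ r ∧ (Real.log H) ^ (1 - γ) ≤ (v : ℝ) - u ∧ v * Real.log r ≤ (Real.log H) ^ (1 + γ) ∧
    H ^ (1 + δ) ≤ |x| * (r : ℝ) ^ u ∧ ¬ EquiW z r u v ε

theorem fib : ∃ γ : ℝ, 0 < γ ∧ γ ≤ 1 / 20 ∧ ∀ C : ℝ, 1 ≤ C → ∀ δ : ℝ, 0 < δ → ∀ ε : ℝ, 0 < ε →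
    ∃ H₀ : ℕ, ∀ (H : ℕ) (x t : ℝ), H₀ ≤ H → x ≠ 0 → |x| ≤ C * H → |t| ≤ C * H →
      (({d : ℤ | |(d : ℝ)| ≤ H ∧ t + d ≠ 0 ∧ BadX H δ γ ε x (x / (t + d))}.ncard : ℕ) : ℝ) ≤
        Real.exp ((Real.log H) ^ (1 / 10 : ℝ)) *
          (8 * (H * Real.exp (-(Real.log H) ^ (2 / 5 : ℝ)))) := by
  obtain ⟨γ, hγ0, hγ1, hq⟩ := mob_fiber
  refine ⟨γ, hγ0, hγ1, ?_⟩
  intro C hC δ hδ ε hε
  obtain ⟨H₁, hH₁⟩ := hq C (δ / 2) (by positivity) ε hε
  have ev1 : ∀ᶠ y : ℝ in atTop, 1 * y ^ (1 / 10 : ℝ) ≤ y ^ (2 / 5 : ℝ) := ev_pow _ _ _ (by norm_num)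
  have ev2 : ∀ᶠ y : ℝ in atTop, Real.log C * (2 / δ) ≤ y := eventually_ge_atTop _
  have hlog : Tendsto (fun N : ℕ => Real.log N) atTop atTop :=
    Real.tendsto_log_atTop.comp tendsto_natCast_atTop_atTop
  have hev := hlog.eventually ((ev1.and ev2).and (eventually_ge_atTop 10))
  obtain ⟨H₀, hH₀⟩ := eventually_atTop.1 (hev.and (eventually_ge_atTop (max H₁ 2)))
  refine ⟨H₀, ?_⟩
  intro H x t hH hx0 hxH htH
  obtain ⟨⟨⟨q1, q4⟩, q2⟩, q3⟩ := hH₀ H hH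
  have hHH₁ : H₁ ≤ H := (le_max_left _ _).trans q3
  have hH2 : 2 ≤ H := (le_max_right _ _).trans q3
  obtain ⟨y, hy⟩ : ∃ y : ℝ, y = Real.log H := ⟨_, rfl⟩
  have hH0 : (0 : ℝ) < H := by exact_mod_cast (by omega : 0 < H)
  have hH1 : (1 : ℝ) ≤ H := by exact_mod_cast (by omega : 1 ≤ H)
  have hrH := hH₁ H
  rw [one_mul] at q1
  have hxpos : 0 < |x| := abs_pos.2 hx0
  have hC0 : 0 < C := by linarith
  have hCH : 0 < C * H := by positivity
  have hCδ : C ≤ (H : ℝ) ^ (δ / 2) := by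
    rw [Real.rpow_def_of_pos hH0, ← Real.log_le_iff_le_exp hC0]
    have := mul_le_mul_of_nonneg_right q4 (by positivity : 0 ≤ δ / 2)
    have e5 : Real.log C * (2 / δ) * (δ / 2) = Real.log C := by field_simp
    rw [e5] at this
    exact this
  have hy0 : 0 < y := by rw [hy]; linarith
  have hy1 : 1 ≤ y := by rw [hy]; linarith
  -- the shifts
  have hw : ∀ r : ℕ, ∃ w : ℕ, 2 ≤ r →
      (|x| * (r : ℝ) ^ w ≤ C * H ∧ C * H < |x| * (r : ℝ) ^ (w + 1)) := by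
    intro r
    by_cases hr : 2 ≤ r
    · have h1 : (1 : ℝ) ≤ C * H / |x| := by rw [le_div_iff₀ hxpos, one_mul]; exact hxH
      have h2 : (1 : ℝ) < r := by exact_mod_cast (by omega : 1 < r)
      obtain ⟨w, a1, a2⟩ := exists_nat_pow_near h1 h2
      refine ⟨w, fun _ => ⟨?_, ?_⟩⟩
      · rw [le_div_iff₀ hxpos] at a1; linarith
      · rw [div_lt_iff₀ hxpos] at a2; linarith
    · exact ⟨0, fun h => absurd h hr⟩
  choose w hw using hw
  obtain ⟨R, hR⟩ : ∃ R : ℕ, R = ⌊Real.exp (y ^ (1 / 10 : ℝ))⌋₊ := ⟨_, rfl⟩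
  have hRle : (R : ℝ) ≤ Real.exp (y ^ (1 / 10 : ℝ)) := by rw [hR]; exact Nat.floor_le (Real.exp_pos _).le
  let S : ℕ → Set ℤ := fun r => {d : ℤ | |(d : ℝ)| ≤ H ∧ t + d ≠ 0 ∧
    BadW H (δ / 2) γ ε (x * (r : ℝ) ^ (w r) / (t + d))}
  have hSfin : ∀ r, (S r).Finite := by
    intro r
    apply (Finset.finite_toSet (Finset.Icc (-(H : ℤ)) H)).subset
    rintro d ⟨h1, -⟩
    rw [Finset.mem_coe, Finset.mem_Icc]
    rw [abs_le] at h1
    exact ⟨by exact_mod_cast h1.1, by exact_mod_cast h1.2⟩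
  have hsub : {d : ℤ | |(d : ℝ)| ≤ H ∧ t + d ≠ 0 ∧ BadX H δ γ ε x (x / (t + d))} ⊆
      ⋃ r ∈ Finset.Icc 2 R, S r := by
    rintro d ⟨h1, h2, r, u, v, hr, h3, h4, h5, h6⟩
    rw [← hy] at h3 h4
    have hr0 : (0 : ℝ) < r := by exact_mod_cast (by omega : 0 < r)
    have hr1 : (1 : ℝ) < r := by exact_mod_cast (by omega : 1 < r)
    have hlr : 0 < Real.log r := Real.log_pos hr1
    have hyg : 0 < y ^ (1 - γ) := Real.rpow_pos_of_pos hy0 _
    have huv : u ≤ v := by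
      have : (u : ℝ) ≤ v := by linarith
      exact_mod_cast this
    have hlr2 : Real.log r ≤ y ^ (1 / 10 : ℝ) := by
      have e1 : y ^ (1 - γ) * Real.log r ≤ y ^ (1 + γ) := by
        calc y ^ (1 - γ) * Real.log r ≤ ((v : ℝ) - u) * Real.log r := by gcongr
          _ ≤ v * Real.log r := by
              apply mul_le_mul_of_nonneg_right _ hlr.le
              linarith [(Nat.cast_nonneg u : (0 : ℝ) ≤ u)]
          _ ≤ _ := h4
      have e2 : y ^ (1 + γ) = y ^ (1 - γ) * y ^ (2 * γ) := by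
        rw [← Real.rpow_add hy0]; congr 1; ring
      rw [e2] at e1
      have e3 := le_of_mul_le_mul_left e1 hyg
      refine e3.trans (Real.rpow_le_rpow_of_exponent_le hy1 (by linarith))
    have hrR : r ≤ R := by
      rw [hR]
      apply Nat.le_floor
      rw [← Real.exp_log hr0]
      exact Real.exp_le_exp.2 hlr2
    obtain ⟨a1, a2⟩ := hw r hr
    have hHδ : (H : ℝ) ^ (1 + δ) = H * (H : ℝ) ^ (δ / 2) * (H : ℝ) ^ (δ / 2) := by
      rw [mul_assoc, ← Real.rpow_add hH0, Real.rpow_add hH0, Real.rpow_one]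
      congr 2; ring
    have hHδ1 : (1 : ℝ) ≤ (H : ℝ) ^ (δ / 2) := Real.one_le_rpow hH1 (by positivity)
    have hHu : C * H ≤ |x| * (r : ℝ) ^ u := by
      refine le_trans ?_ h5
      rw [hHδ]
      calc C * H ≤ (H : ℝ) ^ (δ / 2) * H := by gcongr
        _ = H * (H : ℝ) ^ (δ / 2) * 1 := by ring
        _ ≤ H * (H : ℝ) ^ (δ / 2) * (H : ℝ) ^ (δ / 2) := by gcongr
    have hwu : w r ≤ u := by
      have e1 : |x| * (r : ℝ) ^ (w r) ≤ |x| * (r : ℝ) ^ u := a1.trans hHu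
      have e2 := le_of_mul_le_mul_left e1 hxpos
      exact (pow_le_pow_iff_right₀ hr1).1 e2
    rw [Set.mem_iUnion₂]
    refine ⟨r, Finset.mem_Icc.2 ⟨hr, hrR⟩, h1, h2, r, u - w r, v - w r, hr, ?_, ?_, ?_, ?_⟩
    · rw [← hy, Nat.cast_sub hwu, Nat.cast_sub (hwu.trans huv)]
      linarith
    · rw [← hy]
      refine le_trans ?_ h4
      apply mul_le_mul_of_nonneg_right _ hlr.le
      exact_mod_cast Nat.sub_le _ _
    · have e2 : (r : ℝ) ^ u = (r : ℝ) ^ (w r) * (r : ℝ) ^ (u - w r) := by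
        rw [← pow_add]; congr 1; omega
      rw [hHδ, e2] at h5
      have e3 : (C * H) * (H : ℝ) ^ (δ / 2) ≤ (C * H) * (r : ℝ) ^ (u - w r) := by
        calc (C * H) * (H : ℝ) ^ (δ / 2) ≤ ((H : ℝ) ^ (δ / 2) * H) * (H : ℝ) ^ (δ / 2) := by gcongr
          _ = H * (H : ℝ) ^ (δ / 2) * (H : ℝ) ^ (δ / 2) := by ring
          _ ≤ |x| * ((r : ℝ) ^ (w r) * (r : ℝ) ^ (u - w r)) := h5
          _ = (|x| * (r : ℝ) ^ (w r)) * (r : ℝ) ^ (u - w r) := by ring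
          _ ≤ (C * H) * (r : ℝ) ^ (u - w r) := by gcongr
      exact le_of_mul_le_mul_left e3 hCH
    · intro hcon
      apply h6
      apply equiW_shift _ r (w r) u v ε hwu huv
      have : x / (t + d) * (r : ℝ) ^ (w r) = x * (r : ℝ) ^ (w r) / (t + d) := by ring
      rw [this]
      exact hcon
  have hone : ∀ r ∈ Finset.Icc 2 R, (((S r).ncard : ℕ) : ℝ) ≤
      8 * (H * Real.exp (-(Real.log H) ^ (2 / 5 : ℝ))) := by
    intro r hr
    rw [Finset.mem_Icc] at hr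
    obtain ⟨a1, a2⟩ := hw r hr.1
    have hr0 : (0 : ℝ) < r := by exact_mod_cast (by omega : 0 < r)
    have habs : |x * (r : ℝ) ^ (w r)| = |x| * (r : ℝ) ^ (w r) := by
      rw [abs_mul, abs_of_pos (by positivity : (0 : ℝ) < (r : ℝ) ^ (w r))]
    refine hH₁ H (x * (r : ℝ) ^ (w r)) t hHH₁ ?_ ?_ ?_
    · rw [habs]
      have e1 : (r : ℝ) ≤ Real.exp ((Real.log H) ^ (2 / 5 : ℝ)) := by
        refine le_trans (by exact_mod_cast hr.2) (hRle.trans ?_)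
        rw [hy]
        exact Real.exp_le_exp.2 q1
      have e2 : (H : ℝ) < (|x| * (r : ℝ) ^ (w r)) * Real.exp ((Real.log H) ^ (2 / 5 : ℝ)) := by
        calc (H : ℝ) ≤ C * H := by nlinarith
          _ < |x| * (r : ℝ) ^ (w r + 1) := a2
          _ = (|x| * (r : ℝ) ^ (w r)) * r := by rw [pow_succ]; ring
          _ ≤ _ := by gcongr
      calc (H : ℝ) * Real.exp (-(Real.log H) ^ (2 / 5 : ℝ)) ≤
            ((|x| * (r : ℝ) ^ (w r)) * Real.exp ((Real.log H) ^ (2 / 5 : ℝ))) *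
              Real.exp (-(Real.log H) ^ (2 / 5 : ℝ)) := by gcongr
        _ = (|x| * (r : ℝ) ^ (w r)) := by
            rw [mul_assoc, ← Real.exp_add, add_neg_cancel, Real.exp_zero, mul_one]
    · rw [habs]; exact a1
    · exact htH
  have hfinU : (⋃ r ∈ Finset.Icc 2 R, S r).Finite := by
    apply Set.Finite.biUnion (Finset.finite_toSet _)
    intro r _
    exact hSfin r
  have h1 := Set.ncard_le_ncard hsub hfinU
  have h2 : (⋃ r ∈ Finset.Icc 2 R, S r).ncard ≤ ∑ r ∈ Finset.Icc 2 R, (S r).ncard :=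
    Finset.set_ncard_biUnion_le _ _
  have h3 : (({d : ℤ | |(d : ℝ)| ≤ H ∧ t + d ≠ 0 ∧ BadX H δ γ ε x (x / (t + d))}.ncard : ℕ) : ℝ) ≤
      ∑ r ∈ Finset.Icc 2 R, (((S r).ncard : ℕ) : ℝ) := by exact_mod_cast h1.trans h2
  refine h3.trans ((Finset.sum_le_sum hone).trans ?_)
  rw [Finset.sum_const, nsmul_eq_mul]
  apply mul_le_mul_of_nonneg_right _ (by positivity)
  have h4 : (((Finset.Icc 2 R).card : ℕ) : ℝ) ≤ R := by
    rw [Nat.card_Icc]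
    exact_mod_cast (by omega : R + 1 - 2 ≤ R)
  rw [← hy]
  exact h4.trans hRle

/-- the elements of `ℚ(θ)` of bounded degree and height -/
def Elt (θ : ℝ) (d : ℕ) (h : ℝ) : Set ℝ :=
  {x | ∃ P Q : ℤ[X], P.natDegree ≤ d ∧ Q.natDegree ≤ d ∧ (∀ j, |(P.coeff j : ℝ)| ≤ h) ∧
    (∀ j, |(Q.coeff j : ℝ)| ≤ h) ∧ aeval θ Q ≠ 0 ∧ x = aeval θ P / aeval θ Q}

lemma elt_size (θ : ℝ) (hθ : MeasW θ) (d : ℕ) : ∃ k : ℕ, ∃ K : ℝ, 1 ≤ K ∧ ∀ h : ℝ, 1 ≤ h →
    ∀ x ∈ Elt θ d h, |x| ≤ K * h ^ k ∧ (x ≠ 0 → 1 ≤ K * h ^ k * |x|) := by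
  obtain ⟨κ, C', hC', hm⟩ := hθ d
  obtain ⟨S, hS⟩ : ∃ S : ℝ, S = (d + 1) * (max 1 |θ|) ^ d := ⟨_, rfl⟩
  have hS1 : 1 ≤ S := by
    have h1 : (1 : ℝ) ≤ (max 1 |θ|) ^ d := one_le_pow₀ (le_max_left _ _)
    have h2 : (0 : ℝ) ≤ d := Nat.cast_nonneg d
    rw [hS]; nlinarith
  refine ⟨κ + 1, S * C', by nlinarith, ?_⟩
  rintro h hh x ⟨P, Q, h1, h2, h3, h4, h5, rfl⟩
  have hh0 : 0 < h := by linarith
  have hP1 := aeval_le θ d P h1 h h3
  have hQ1 := aeval_le θ d Q h2 h h4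
  rw [← hS] at hP1 hQ1
  have hQ2 := hm Q h2 h hh h4 h5
  have hQ0 : 0 < |aeval θ Q| := abs_pos.2 h5
  constructor
  · rw [abs_div, div_le_iff₀ hQ0]
    calc |aeval θ P| ≤ S * h * 1 := by rw [mul_one]; exact hP1
      _ ≤ S * h * (C' * h ^ κ * |aeval θ Q|) := by gcongr
      _ = S * C' * h ^ (κ + 1) * |aeval θ Q| := by rw [pow_succ]; ring
  · intro hx
    have hP0 : aeval θ P ≠ 0 := by
      intro h0; apply hx; rw [h0, zero_div]
    have hP2 := hm P h1 h hh h3 hP0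
    rw [abs_div, mul_div_assoc', le_div_iff₀ hQ0, one_mul]
    calc |aeval θ Q| ≤ S * h * 1 := by rw [mul_one]; exact hQ1
      _ ≤ S * h * (C' * h ^ κ * |aeval θ P|) := by gcongr
      _ = S * C' * h ^ (κ + 1) * |aeval θ P| := by rw [pow_succ]; ring

lemma elt_count (θ : ℝ) (d : ℕ) (H : ℝ) (hH : 1 ≤ H) : ∃ T : Finset ℝ, Elt θ d H ⊆ (T : Set ℝ) ∧
    (T.card : ℝ) ≤ (3 * H) ^ (2 * (d + 1)) := by
  classical
  set Bx : Finset (Fin (d + 1) → ℤ) := Fintype.piFinset fun _ => Icc (-(⌊H⌋₊ : ℤ)) (⌊H⌋₊ : ℤ) with hBx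
  let ev : (Fin (d + 1) → ℤ) → ℝ := fun v => ∑ i : Fin (d + 1), (v i : ℝ) * θ ^ (i : ℕ)
  have hev : ∀ P : ℤ[X], P.natDegree ≤ d → (∀ j, |(P.coeff j : ℝ)| ≤ H) →
      ∃ v ∈ Bx, ev v = aeval θ P := by
    intro P hP hPH
    refine ⟨fun i => P.coeff i, ?_, ?_⟩
    · rw [hBx, Fintype.mem_piFinset]
      intro i
      rw [mem_Icc]
      have h1 : |P.coeff i| ≤ (⌊H⌋₊ : ℤ) := by
        have h2 := hPH i
        have h3 : ((|P.coeff i| : ℤ) : ℝ) ≤ H := by push_cast; exact h2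
        have h4 : |P.coeff i| ≤ ⌊H⌋ := Int.le_floor.2 h3
        rwa [← Int.natCast_floor_eq_floor (by linarith)] at h4
      exact abs_le.1 h1
    · rw [aeval_eq_sum_range' (by omega : P.natDegree < d + 1)]
      simp only [ev]
      rw [Fin.sum_univ_eq_sum_range (fun i => (P.coeff i : ℝ) * θ ^ i)]
      refine sum_congr rfl fun j _ => ?_
      rw [zsmul_eq_mul]
  refine ⟨(Bx ×ˢ Bx).image fun vw => ev vw.1 / ev vw.2, ?_, ?_⟩
  · rintro x ⟨P, Q, h2, h3, h4, h5, -, rfl⟩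
    rw [Finset.mem_coe, mem_image]
    obtain ⟨v, hv, hv2⟩ := hev P h2 h4
    obtain ⟨w, hw, hw2⟩ := hev Q h3 h5
    exact ⟨(v, w), mem_product.2 ⟨hv, hw⟩, by simp only [hv2, hw2]⟩
  · have hcard : Bx.card = (2 * ⌊H⌋₊ + 1) ^ (d + 1) := by
      rw [hBx, Fintype.card_piFinset, prod_const, card_univ, Fintype.card_fin, Int.card_Icc]
      congr 1
      omega
    have h1 : ((Bx ×ˢ Bx).image fun vw => ev vw.1 / ev vw.2).card ≤ Bx.card * Bx.card :=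
      card_image_le.trans (by rw [card_product])
    rw [hcard, ← pow_add] at h1
    have h2 : (((Bx ×ˢ Bx).image fun vw => ev vw.1 / ev vw.2).card : ℝ) ≤
        (2 * (⌊H⌋₊ : ℝ) + 1) ^ (d + 1 + (d + 1)) := by exact_mod_cast h1
    refine h2.trans ?_
    have h3 : ((⌊H⌋₊ : ℕ) : ℝ) ≤ H := Nat.floor_le (by linarith)
    rw [← two_mul]
    apply pow_le_pow_left₀ (by positivity)
    linarith

end Pool.Agent.Helper478.Shift
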