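import Pool.Agent.Helper478_Shift.Rng

/-!
# The digits of `A / (t + d)` for almost all integers `d`
-/

set_option autoImplicit false

namespace Pool.Agent.Helper478.Shift

open Finset Filter
open Pool.Agent.Helper478.Surds (ev_pow EquiW)

/-- the denominators of the bad quotients -/
theorem mob_fiber : ∃ γ : ℝ, 0 < γ ∧ γ ≤ 1 / 20 ∧ ∀ C : ℝ, ∀ δ : ℝ, 0 < δ → ∀ ε : ℝ, 0 < ε → ∃ H₀ : ℕ,
    ∀ (H : ℕ) (A t : ℝ), H₀ ≤ H → H * Real.exp (-(Real.log H) ^ (2 / 5 : ℝ)) ≤ |A| →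
      |A| ≤ C * H → |t| ≤ C * H →
      (({d : ℤ | |(d : ℝ)| ≤ H ∧ t + d ≠ 0 ∧ BadW H δ γ ε (A / (t + d))}.ncard : ℕ) : ℝ) ≤
        8 * (H * Real.exp (-(Real.log H) ^ (2 / 5 : ℝ))) := by
  obtain ⟨γ, hγ0, hγ1, hr⟩ := rangeH
  refine ⟨γ, hγ0, hγ1, ?_⟩
  intro C δ hδ ε hε
  obtain ⟨H₁, hH₁⟩ := hr (-1) le_rfl (by norm_num) (by norm_num) δ hδ ε hε
  have ev1 : ∀ᶠ y : ℝ in atTop, 8 * y ^ (2 / 5 : ℝ) ≤ y ^ (1 : ℝ) := ev_pow _ _ _ (by norm_num)
  have ev2 : ∀ᶠ y : ℝ in atTop, Real.log (|C| + 2) * y ^ (0 : ℝ) ≤ y ^ (2 / 5 : ℝ) :=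
    ev_pow _ _ _ (by norm_num)
  have hlog : Tendsto (fun N : ℕ => Real.log N) atTop atTop :=
    Real.tendsto_log_atTop.comp tendsto_natCast_atTop_atTop
  have hev := hlog.eventually ((ev1.and ev2).and (eventually_ge_atTop 10))
  obtain ⟨H₀, hH₀⟩ := eventually_atTop.1 (hev.and (eventually_ge_atTop (max H₁ 2)))
  refine ⟨H₀, ?_⟩
  intro H A t hH hA1 hA2 ht
  obtain ⟨⟨⟨q1, q4⟩, q2⟩, q3⟩ := hH₀ H hH
  have hHH₁ : H₁ ≤ H := (le_max_left _ _).trans q3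
  have hH2 : 2 ≤ H := (le_max_right _ _).trans q3
  obtain ⟨y, hy⟩ : ∃ y : ℝ, y = Real.log H := ⟨_, rfl⟩
  have hH0 : (0 : ℝ) < H := by exact_mod_cast (by omega : 0 < H)
  have hH1 : (1 : ℝ) ≤ H := by exact_mod_cast (by omega : 1 ≤ H)
  have hHexp : (H : ℝ) = Real.exp y := by rw [hy, Real.exp_log hH0]
  have hrH := hH₁ H
  rw [← hy] at q1 q2 q4 hA1 hrH ⊢
  obtain ⟨L, hL⟩ : ∃ L : ℝ, L = y ^ (2 / 5 : ℝ) := ⟨_, rfl⟩
  rw [← hL] at q1 q4 hA1 hrH ⊢
  rw [Real.rpow_one] at q1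
  rw [Real.rpow_zero, mul_one] at q4
  have hy0 : 0 < y := by linarith
  have hy1 : 1 ≤ y := by linarith
  have hL1 : 1 ≤ L := by rw [hL]; exact Real.one_le_rpow hy1 (by norm_num)
  have hC2 : |C| + 2 ≤ Real.exp L := by
    rw [← Real.log_le_iff_le_exp (by positivity)]
    exact q4
  have hCle : C ≤ |C| := le_abs_self C
  obtain ⟨T, hT⟩ : ∃ T : ℝ, T = H * Real.exp (-L) := ⟨_, rfl⟩
  rw [← hT] at hA1 ⊢
  have hT1 : 1 ≤ T := by
    rw [hT, hHexp, ← Real.exp_add]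
    exact Real.one_le_exp (by linarith)
  have hA0 : 0 < |A| := by linarith
  have hAne : A ≠ 0 := abs_pos.1 hA0
  have hA3 : |A| ≤ H * Real.exp L := by
    calc |A| ≤ C * H := hA2
      _ ≤ Real.exp L * H := by
          apply mul_le_mul_of_nonneg_right _ hH0.le
          linarith
      _ = H * Real.exp L := by ring
  -- the parameters `P` and `Q`
  obtain ⟨P, hP⟩ : ∃ P : ℕ, P = ⌈T⌉₊ := ⟨_, rfl⟩
  obtain ⟨Q, hQ⟩ : ∃ Q : ℕ, Q = ⌊(H : ℝ) * Real.exp (2 * L)⌋₊ := ⟨_, rfl⟩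
  have hPge : T ≤ P := by rw [hP]; exact Nat.le_ceil _
  have hPle : (P : ℝ) ≤ T + 1 := by rw [hP]; exact (Nat.ceil_lt_add_one (by linarith)).le
  have hQle : (Q : ℝ) ≤ H * Real.exp (2 * L) := by rw [hQ]; exact Nat.floor_le (by positivity)
  have hQle3 : (Q : ℝ) ≤ H * Real.exp (3 * L) :=
    hQle.trans (mul_le_mul_of_nonneg_left (Real.exp_le_exp.2 (by linarith)) hH0.le)
  have hamp : ∀ τ : ℝ, |τ| = 1 → ∀ N : ℕ, P ≤ N → N ≤ Q →
      Real.exp (-(3 * L)) ≤ |τ * A| * (N : ℝ) ^ (-1 : ℝ) ∧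
        |τ * A| * (N : ℝ) ^ (-1 : ℝ) ≤ Real.exp (3 * L) := by
    intro τ hτ N hN1 hN2
    have hN1' : T ≤ N := hPge.trans (by exact_mod_cast hN1)
    have hN2' : (N : ℝ) ≤ H * Real.exp (2 * L) := le_trans (by exact_mod_cast hN2) hQle
    have hN0 : (0 : ℝ) < N := by linarith
    rw [abs_mul, hτ, one_mul, Real.rpow_neg_one, ← div_eq_mul_inv]
    constructor
    · rw [le_div_iff₀ hN0]
      calc Real.exp (-(3 * L)) * N ≤ Real.exp (-(3 * L)) * (H * Real.exp (2 * L)) := by gcongr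
        _ = H * (Real.exp (-(3 * L)) * Real.exp (2 * L)) := by ring
        _ = T := by rw [hT, ← Real.exp_add]; congr 2; ring
        _ ≤ |A| := hA1
    · rw [div_le_iff₀ hN0]
      calc |A| ≤ H * Real.exp L := hA3
        _ = Real.exp (2 * L) * T := by
            rw [hT]
            have : Real.exp L = Real.exp (2 * L) * Real.exp (-L) := by
              rw [← Real.exp_add]; congr 1; ring
            rw [this]; ring
        _ ≤ Real.exp (3 * L) * N :=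
            mul_le_mul (Real.exp_le_exp.2 (by linarith)) hN1' (by linarith) (Real.exp_pos _).le
  -- one sign
  have hone : ∀ τ : ℤ, (τ = 1 ∨ τ = -1) → (({d : ℤ | |(d : ℝ)| ≤ H ∧ 0 < (τ : ℝ) * (t + d) ∧
      BadW H δ γ ε (A / (t + d))}.ncard : ℕ) : ℝ) ≤ (P + 1) + T := by
    intro τ hτ
    have hτ2 : τ * τ = 1 := by rcases hτ with rfl | rfl <;> norm_num
    have hτ2' : (τ : ℝ) * τ = 1 := by exact_mod_cast hτ2
    have hτabs : |(τ : ℝ)| = 1 := by rcases hτ with rfl | rfl <;> simp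
    obtain ⟨K, hK⟩ : ∃ K : ℤ, K = ⌈(τ : ℝ) * t⌉ := ⟨_, rfl⟩
    obtain ⟨s, hs⟩ : ∃ s : ℝ, s = K - τ * t := ⟨_, rfl⟩
    have hs0 : 0 ≤ s := by
      rw [hs, hK]; linarith [Int.le_ceil ((τ : ℝ) * t)]
    have hs1 : s < 1 := by
      rw [hs, hK]; linarith [Int.ceil_lt_add_one ((τ : ℝ) * t)]
    let S : Set ℕ := {m : ℕ | P < m ∧ m ≤ Q ∧
      BadW H δ γ ε (0 + (τ * A) * ((m : ℝ) - s) ^ (-1 : ℝ))}
    have hS : ((S.ncard : ℕ) : ℝ) ≤ H * Real.exp (-(2 * L)) := by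
      refine hrH 0 (τ * A) s P Q hHH₁ hs0 hs1 ?_ (by rw [← hT]; exact hPge) hQle3 (hamp τ hτabs)
      have : (τ : ℝ) ≠ 0 := by
        intro h
        rw [h] at hτabs
        simp at hτabs
      positivity
    have hSfin : S.Finite := (Set.finite_Iic Q).subset fun m hm => hm.2.1
    have hsub : {d : ℤ | |(d : ℝ)| ≤ H ∧ 0 < (τ : ℝ) * (t + d) ∧
        BadW H δ γ ε (A / (t + d))} ⊆ (fun m : ℕ => τ * ((m : ℤ) - K)) '' (Set.Iic P ∪ S) := by
      rintro d ⟨hd, hpos, hbad⟩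
      obtain ⟨m, hm⟩ : ∃ m : ℤ, m = τ * d + K := ⟨_, rfl⟩
      have hms : (m : ℝ) - s = τ * (t + d) := by
        rw [hm, hs]; push_cast; ring
      have hm0 : 0 ≤ m := by
        have : (0 : ℝ) ≤ m := by linarith
        exact_mod_cast this
      obtain ⟨n, rfl⟩ := Int.eq_ofNat_of_zero_le hm0
      have hns : (n : ℝ) - s = τ * (t + d) := by
        rw [← hms]; push_cast; rfl
      have hnQ : n ≤ Q := by
        rw [hQ]
        apply Nat.le_floor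
        have e1 : (τ : ℝ) * t ≤ C * H := by
          refine (le_abs_self _).trans ?_
          rw [abs_mul, hτabs, one_mul]
          exact ht
        have e2 : (τ : ℝ) * d ≤ H := by
          refine (le_abs_self _).trans ?_
          rw [abs_mul, hτabs, one_mul]
          exact hd
        have e3 : (n : ℝ) ≤ (C + 2) * H := by nlinarith
        have e4 : Real.exp (2 * L) = Real.exp L * Real.exp L := by
          rw [← Real.exp_add]; congr 1; ring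
        have e5 : 1 ≤ Real.exp L := Real.one_le_exp (by linarith)
        calc (n : ℝ) ≤ (C + 2) * H := e3
          _ ≤ Real.exp L * H := by
              apply mul_le_mul_of_nonneg_right _ hH0.le
              linarith
          _ ≤ H * Real.exp (2 * L) := by
              rw [e4]; nlinarith [mul_nonneg hH0.le (Real.exp_pos L).le]
      have hval : A / (t + d) = 0 + (τ * A) * ((n : ℝ) - s) ^ (-1 : ℝ) := by
        have htd : t + d ≠ 0 := by
          intro h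
          rw [h, mul_zero] at hpos
          exact lt_irrefl _ hpos
        have hτne : (τ : ℝ) ≠ 0 := by
          intro h
          rw [h] at hτabs
          simp at hτabs
        rw [hns, Real.rpow_neg_one]
        field_simp
        ring
      refine ⟨n, ?_, ?_⟩
      · rcases le_or_gt n P with h | h
        · exact Or.inl h
        · exact Or.inr ⟨h, hnQ, by rw [← hval]; exact hbad⟩
      · simp only
        have : (n : ℤ) = τ * d + K := hm
        rw [this]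
        linear_combination d * hτ2
    have hfin1 : (Set.Iic P ∪ S).Finite := (Set.finite_Iic P).union hSfin
    have h1 := Set.ncard_le_ncard hsub (hfin1.image _)
    have h2 := Set.ncard_image_le (f := fun m : ℕ => τ * ((m : ℤ) - K)) hfin1
    have h3 := Set.ncard_union_le (Set.Iic P) S
    have h5 : (Set.Iic P).ncard = P + 1 := by
      rw [← Finset.coe_Iic, Set.ncard_coe_finset, Nat.card_Iic]
    have h6 : ({d : ℤ | |(d : ℝ)| ≤ H ∧ 0 < (τ : ℝ) * (t + d) ∧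
        BadW H δ γ ε (A / (t + d))}.ncard) ≤ (P + 1) + S.ncard := by
      omega
    have h7 : (({d : ℤ | |(d : ℝ)| ≤ H ∧ 0 < (τ : ℝ) * (t + d) ∧
        BadW H δ γ ε (A / (t + d))}.ncard : ℕ) : ℝ) ≤ ((P : ℝ) + 1) + (S.ncard : ℕ) := by
      exact_mod_cast h6
    have h8 : (H : ℝ) * Real.exp (-(2 * L)) ≤ T := by
      rw [hT]
      exact mul_le_mul_of_nonneg_left (Real.exp_le_exp.2 (by linarith)) hH0.le
    linarith
  have hsub : {d : ℤ | |(d : ℝ)| ≤ H ∧ t + d ≠ 0 ∧ BadW H δ γ ε (A / (t + d))} ⊆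
      {d : ℤ | |(d : ℝ)| ≤ H ∧ 0 < ((1 : ℤ) : ℝ) * (t + d) ∧ BadW H δ γ ε (A / (t + d))} ∪
      {d : ℤ | |(d : ℝ)| ≤ H ∧ 0 < ((-1 : ℤ) : ℝ) * (t + d) ∧ BadW H δ γ ε (A / (t + d))} := by
    rintro d ⟨h1, h2, h3⟩
    rcases lt_or_gt_of_ne h2 with h | h
    · exact Or.inr ⟨h1, by push_cast; linarith, h3⟩
    · exact Or.inl ⟨h1, by push_cast; linarith, h3⟩
  have hfin : ∀ τ : ℤ, {d : ℤ | |(d : ℝ)| ≤ H ∧ 0 < (τ : ℝ) * (t + d) ∧
      BadW H δ γ ε (A / (t + d))}.Finite := by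
    intro τ
    apply (Finset.finite_toSet (Finset.Icc (-(H : ℤ)) H)).subset
    rintro d ⟨h1, -⟩
    rw [Finset.mem_coe, Finset.mem_Icc]
    rw [abs_le] at h1
    exact ⟨by exact_mod_cast h1.1, by exact_mod_cast h1.2⟩
  have h1 := (Set.ncard_le_ncard hsub ((hfin 1).union (hfin (-1)))).trans (Set.ncard_union_le _ _)
  have h2 := hone 1 (Or.inl rfl)
  have h3 := hone (-1) (Or.inr rfl)
  have h4 : (({d : ℤ | |(d : ℝ)| ≤ H ∧ t + d ≠ 0 ∧ BadW H δ γ ε (A / (t + d))}.ncard : ℕ) : ℝ) ≤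
      (({d : ℤ | |(d : ℝ)| ≤ H ∧ 0 < ((1 : ℤ) : ℝ) * (t + d) ∧
        BadW H δ γ ε (A / (t + d))}.ncard : ℕ) : ℝ) +
      (({d : ℤ | |(d : ℝ)| ≤ H ∧ 0 < ((-1 : ℤ) : ℝ) * (t + d) ∧
        BadW H δ γ ε (A / (t + d))}.ncard : ℕ) : ℝ) := by
    exact_mod_cast h1
  linarith

end Pool.Agent.Helper478.Shift
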