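import Pool.Agent.Helper478_Surds.Vkg

/-!
# The phases `F (a + x y) ^ θ` for a real base point `a`
-/

set_option autoImplicit false

namespace Pool.Agent.Helper478.Shift

open Finset
open Pool.Agent.H469R2.NK (e norm_e e_add e_zero conj_e)
open Pool.Agent.Y957.VK (TT)
open Pool.Agent.Helper478.Surds (cf cf_zero cf_le cf_ge Lr taylor e_sub_le)

/-- the coefficients of the phases -/
noncomputable def alpR (F θ a : ℝ) (j : ℕ) : ℝ := F * a ^ θ * cf θ j / a ^ j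

/-- one base point -/
theorem innerR (F θ : ℝ) (hF : 0 ≤ F) (h1 : -1 ≤ θ) (h2 : θ < 1) (a : ℝ) (M r : ℕ) (ha : 1 ≤ a)
    (hM : (M : ℝ) ^ 2 ≤ a) :
    ‖∑ x ∈ Icc 1 M, ∑ y ∈ Icc 1 M, e (F * (a + (x : ℝ) * y) ^ θ)‖ ≤
      ‖TT r M (alpR F θ a)‖ + (M : ℝ) ^ 2 * (2 * Real.pi * (F * a ^ θ *
        (2 * (r + 1) * ((M : ℝ) ^ 2 / a) ^ (r + 1)))) := by
  have hn0 : (0 : ℝ) < a := by linarith
  have hnθ : 0 < a ^ θ := Real.rpow_pos_of_pos hn0 _
  have key : ∀ x ∈ Icc 1 M, ∀ y ∈ Icc 1 M,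
      ‖e (F * (a + (x : ℝ) * y) ^ θ) - e (F * a ^ θ) *
        Complex.exp (2 * Real.pi * Complex.I *
          ((∑ j ∈ Finset.Icc 1 r, alpR F θ a j * ((x : ℝ) * y) ^ j : ℝ) : ℂ))‖ ≤
      2 * Real.pi * (F * a ^ θ * (2 * (r + 1) * ((M : ℝ) ^ 2 / a) ^ (r + 1))) := by
    intro x hx y hy
    have hx' : (x : ℝ) ≤ M := by exact_mod_cast (mem_Icc.1 hx).2
    have hy' : (y : ℝ) ≤ M := by exact_mod_cast (mem_Icc.1 hy).2
    set z : ℝ := (x : ℝ) * y / a with hz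
    have hz0 : 0 ≤ z := by positivity
    have hxy : (x : ℝ) * y ≤ (M : ℝ) ^ 2 := by
      rw [sq]; exact mul_le_mul hx' hy' (by positivity) (by positivity)
    have hzM : z ≤ (M : ℝ) ^ 2 / a := by rw [hz]; gcongr
    have hz1 : z ≤ 1 := hzM.trans (by rw [div_le_one hn0]; exact hM)
    have e1 : F * (a + (x : ℝ) * y) ^ θ = F * a ^ θ * (1 + z) ^ θ := by
      have : (a + (x : ℝ) * y) = a * (1 + z) := by
        rw [hz]; field_simp
      rw [this, Real.mul_rpow hn0.le (by linarith)]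
      ring
    have e2 : e (F * a ^ θ) * Complex.exp (2 * Real.pi * Complex.I *
          ((∑ j ∈ Finset.Icc 1 r, alpR F θ a j * ((x : ℝ) * y) ^ j : ℝ) : ℂ)) =
        e (F * a ^ θ * Lr θ r z) := by
      have e3 : F * a ^ θ * Lr θ r z = F * a ^ θ +
          ∑ j ∈ Finset.Icc 1 r, alpR F θ a j * ((x : ℝ) * y) ^ j := by
        rw [Lr, Finset.range_eq_Ico, Finset.sum_eq_sum_Ico_succ_bot (by omega), cf_zero, pow_zero,
          mul_one, mul_add, mul_one, mul_sum]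
        congr 1
        refine sum_congr rfl fun j _ => ?_
        rw [alpR, hz, div_pow]
        ring
      rw [e3, e_add]
      congr 1
      unfold Pool.Agent.H469R2.NK.e
      congr 1
      push_cast
      ring
    rw [e1, e2]
    refine (e_sub_le _ _).trans ?_
    rw [← mul_sub, abs_mul, abs_of_nonneg (by positivity)]
    have e4 := taylor θ h1 h2 r z hz0 hz1
    have e5 : 2 * ((r : ℝ) + 1) * z ^ (r + 1) ≤ 2 * (r + 1) * ((M : ℝ) ^ 2 / a) ^ (r + 1) := by gcongr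
    gcongr
    exact e4.trans e5
  have e1 : ∑ x ∈ Icc 1 M, ∑ y ∈ Icc 1 M, e (F * (a + (x : ℝ) * y) ^ θ) =
      e (F * a ^ θ) * TT r M (alpR F θ a) +
      ∑ x ∈ Icc 1 M, ∑ y ∈ Icc 1 M, (e (F * (a + (x : ℝ) * y) ^ θ) - e (F * a ^ θ) *
        Complex.exp (2 * Real.pi * Complex.I *
          ((∑ j ∈ Finset.Icc 1 r, alpR F θ a j * ((x : ℝ) * y) ^ j : ℝ) : ℂ))) := by
    unfold TT
    simp only [Finset.sum_sub_distrib, Finset.mul_sum]
    ring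
  rw [e1]
  refine (norm_add_le _ _).trans ?_
  rw [norm_mul, norm_e, one_mul]
  refine add_le_add le_rfl ?_
  refine (norm_sum_le _ _).trans ?_
  refine (Finset.sum_le_sum fun x hx => (norm_sum_le _ _).trans
    (Finset.sum_le_sum fun y hy => key x hx y hy)).trans ?_
  simp only [Finset.sum_const, Nat.card_Icc, Nat.add_sub_cancel, nsmul_eq_mul]
  rw [sq]
  linarith

/-- the size of the coefficients -/
lemma alp_boundsR (θ : ℝ) (h1 : -1 ≤ θ) (h2 : θ < 1) (h3 : θ ≠ 0) : ∃ A : ℝ, 0 ≤ A ∧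
    ∀ (N r j : ℕ) (a F κ : ℝ), 2 ≤ N → (N : ℝ) ≤ a → a ≤ 2 * N → 0 < F → 1 / 2 ≤ κ →
      (N : ℝ) ^ κ = 12 * F * (N : ℝ) ^ θ → r = ⌈5 * κ⌉₊ + 5 → j ∈ Icc 1 r →
      |alpR F θ a j| ≤ (N : ℝ) ^ κ / (6 * (N : ℝ) ^ j) ∧
      (N : ℝ) ^ κ / (N : ℝ) ^ j ≤ Real.exp (A + 12 * (1 + κ)) * |alpR F θ a j| := by
  set B : ℝ := |θ| * (1 - θ) / 2 with hB
  have hB0 : 0 < B := by
    have e1 : 0 < |θ| := abs_pos.2 h3
    have e2 : 0 < 1 - θ := by linarith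
    positivity
  have hB1 : B ≤ 1 := by
    have e1 : |θ| ≤ 1 := abs_le.2 ⟨h1, h2.le⟩
    have e2 : 0 < 1 - θ := by linarith
    rw [hB]
    nlinarith [abs_nonneg θ]
  refine ⟨Real.log (24 / B), Real.log_nonneg (by rw [le_div_iff₀ hB0]; linarith), ?_⟩
  intro N r j n F κ hN hn0 hn2' hF hκ hNκ hr hj
  obtain ⟨hj1, hj2⟩ := mem_Icc.1 hj
  have hNr : (2 : ℝ) ≤ N := by exact_mod_cast hN
  have hN0 : (0 : ℝ) < N := by linarith
  have hnpos : (0 : ℝ) < n := by linarith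
  have hNθ : 0 < (N : ℝ) ^ θ := Real.rpow_pos_of_pos hN0 _
  have hnθ : 0 < (n : ℝ) ^ θ := Real.rpow_pos_of_pos hnpos _
  have hab : |alpR F θ n j| = F * (n : ℝ) ^ θ * |cf θ j| / (n : ℝ) ^ j := by
    rw [alpR, abs_div, abs_mul, abs_mul, abs_of_pos hF, abs_of_pos hnθ,
      abs_of_pos (by positivity : (0 : ℝ) < (n : ℝ) ^ j)]
  -- the power
  have hrat : (n : ℝ) ^ θ = (N : ℝ) ^ θ * ((n : ℝ) / N) ^ θ := by
    rw [← Real.mul_rpow hN0.le (by positivity)]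
    congr 1
    field_simp
  have hq1 : 1 ≤ (n : ℝ) / N := by rw [le_div_iff₀ hN0]; linarith
  have hq2 : (n : ℝ) / N ≤ 2 := by rw [div_le_iff₀ hN0]; linarith
  have hup : ((n : ℝ) / N) ^ θ ≤ 2 := by
    calc ((n : ℝ) / N) ^ θ ≤ ((n : ℝ) / N) ^ (1 : ℝ) := Real.rpow_le_rpow_of_exponent_le hq1 h2.le
      _ = (n : ℝ) / N := Real.rpow_one _
      _ ≤ 2 := hq2
  have hlo : 1 / 2 ≤ ((n : ℝ) / N) ^ θ := by
    calc (1 : ℝ) / 2 ≤ ((n : ℝ) / N)⁻¹ := by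
          rw [one_div]; exact inv_anti₀ (by positivity) hq2
      _ = ((n : ℝ) / N) ^ (-1 : ℝ) := (Real.rpow_neg_one _).symm
      _ ≤ ((n : ℝ) / N) ^ θ := Real.rpow_le_rpow_of_exponent_le hq1 h1
  have hNj : (0 : ℝ) < (N : ℝ) ^ j := by positivity
  have hnj : (0 : ℝ) < (n : ℝ) ^ j := by positivity
  constructor
  · rw [hab, hNκ]
    have e1 : F * (n : ℝ) ^ θ * |cf θ j| ≤ F * ((N : ℝ) ^ θ * 2) * 1 := by
      rw [hrat]
      gcongr
      exact cf_le θ h1 h2 j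
    calc F * (n : ℝ) ^ θ * |cf θ j| / (n : ℝ) ^ j ≤ (F * ((N : ℝ) ^ θ * 2) * 1) / (N : ℝ) ^ j := by
          gcongr
      _ = 12 * F * (N : ℝ) ^ θ / (6 * (N : ℝ) ^ j) := by
          field_simp
          norm_num
  · have hjk : (j : ℝ) ≤ 6 * (1 + κ) := by
      have e1 := Nat.ceil_lt_add_one (a := 5 * κ) (by linarith)
      have e2 : (j : ℝ) ≤ r := by exact_mod_cast hj2
      have e3 : (r : ℝ) = ⌈5 * κ⌉₊ + 5 := by rw [hr]; push_cast; rfl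
      linarith
    have hcf := cf_ge θ h1 h2 j hj1
    rw [← hB] at hcf
    have e6 : (6 : ℝ) ^ j ≤ Real.exp (12 * (1 + κ)) := by
      have h6 : (6 : ℝ) ≤ Real.exp 2 := by
        have h3 : Real.exp 2 = Real.exp 1 * Real.exp 1 := by rw [← Real.exp_add]; norm_num
        have h4 := Real.exp_one_gt_d9
        rw [h3]; nlinarith
      calc (6 : ℝ) ^ j ≤ (Real.exp 2) ^ j := pow_le_pow_left₀ (by norm_num) h6 j
        _ = Real.exp (2 * j) := by rw [← Real.exp_nat_mul]; congr 1; ring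
        _ ≤ Real.exp (12 * (1 + κ)) := Real.exp_le_exp.2 (by linarith)
    have hnj2 : (n : ℝ) ^ j ≤ 2 ^ j * (N : ℝ) ^ j := by
      rw [← mul_pow]; exact pow_le_pow_left₀ hnpos.le hn2' j
    rw [hab, Real.exp_add, Real.exp_log (by positivity)]
    -- reduce to a product inequality
    have e7 : B ≤ 3 ^ j * |cf θ j| := hcf
    have e8 : F * ((N : ℝ) ^ θ * (1 / 2)) * |cf θ j| / (2 ^ j * (N : ℝ) ^ j) ≤
        F * (n : ℝ) ^ θ * |cf θ j| / (n : ℝ) ^ j := by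
      rw [hrat]
      gcongr
    calc (N : ℝ) ^ κ / (N : ℝ) ^ j = 24 / B * ((F * ((N : ℝ) ^ θ * (1 / 2))) / (N : ℝ) ^ j) * B := by
          rw [hNκ]; field_simp; ring
      _ ≤ 24 / B * ((F * ((N : ℝ) ^ θ * (1 / 2))) / (N : ℝ) ^ j) * (3 ^ j * |cf θ j|) := by gcongr
      _ = 24 / B * 6 ^ j * (F * ((N : ℝ) ^ θ * (1 / 2)) * |cf θ j| / (2 ^ j * (N : ℝ) ^ j)) := by
          have : (6 : ℝ) ^ j = 3 ^ j * 2 ^ j := by rw [← mul_pow]; norm_num
          rw [this]; field_simp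
      _ ≤ 24 / B * Real.exp (12 * (1 + κ)) * (F * (n : ℝ) ^ θ * |cf θ j| / (n : ℝ) ^ j) := by gcongr

end Pool.Agent.Helper478.Shift
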