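import Pool.Agent.Helper478_Shift.Rng

/-!
# The digits of almost all real quadratic irrationals
-/

set_option autoImplicit false

namespace Pool.Agent.Helper478.Shift

open Finset Filter
open Pool.Agent.Helper478.Surds (ev_pow EquiW)

/-- the constant terms of the bad quadratics with the given leading coefficients -/
theorem quad_fiber : ∃ γ : ℝ, 0 < γ ∧ γ ≤ 1 / 20 ∧ ∀ δ : ℝ, 0 < δ → ∀ ε : ℝ, 0 < ε → ∃ H₀ : ℕ,
    ∀ (H : ℕ) (a b : ℤ), H₀ ≤ H → H * Real.exp (-(Real.log H) ^ (2 / 5 : ℝ)) ≤ |(a : ℝ)| →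
      |(a : ℝ)| ≤ H → |(b : ℝ)| ≤ H →
      (({c : ℤ | |(c : ℝ)| ≤ H ∧ ∃ ξ : ℝ, (a : ℝ) * ξ ^ 2 + b * ξ + c = 0 ∧
        BadW H δ γ ε ξ}.ncard : ℕ) : ℝ) ≤ 5 * (H * Real.exp (-(Real.log H) ^ (2 / 5 : ℝ))) := by
  obtain ⟨γ, hγ0, hγ1, hr⟩ := rangeH
  refine ⟨γ, hγ0, hγ1, ?_⟩
  intro δ hδ ε hε
  obtain ⟨H₁, hH₁⟩ := hr (1 / 2) (by norm_num) (by norm_num) (by norm_num) δ hδ ε hε
  have ev1 : ∀ᶠ y : ℝ in atTop, 8 * y ^ (2 / 5 : ℝ) ≤ y ^ (1 : ℝ) := ev_pow _ _ _ (by norm_num)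
  have hlog : Tendsto (fun N : ℕ => Real.log N) atTop atTop :=
    Real.tendsto_log_atTop.comp tendsto_natCast_atTop_atTop
  have hev := hlog.eventually (ev1.and (eventually_ge_atTop 10))
  obtain ⟨H₀, hH₀⟩ := eventually_atTop.1 (hev.and (eventually_ge_atTop (max H₁ 2)))
  refine ⟨H₀, ?_⟩
  intro H a b hH ha1 ha2 hb
  obtain ⟨⟨q1, q2⟩, q3⟩ := hH₀ H hH
  have hHH₁ : H₁ ≤ H := (le_max_left _ _).trans q3
  have hH2 : 2 ≤ H := (le_max_right _ _).trans q3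
  obtain ⟨y, hy⟩ : ∃ y : ℝ, y = Real.log H := ⟨_, rfl⟩
  have hH0 : (0 : ℝ) < H := by exact_mod_cast (by omega : 0 < H)
  have hHexp : (H : ℝ) = Real.exp y := by rw [hy, Real.exp_log hH0]
  have hrH := hH₁ H
  rw [← hy] at q1 q2 ha1 hrH ⊢
  obtain ⟨L, hL⟩ : ∃ L : ℝ, L = y ^ (2 / 5 : ℝ) := ⟨_, rfl⟩
  rw [← hL] at q1 ha1 hrH ⊢
  rw [Real.rpow_one] at q1
  have hy0 : 0 < y := by linarith
  have hy1 : 1 ≤ y := by linarith
  have hL1 : 1 ≤ L := by rw [hL]; exact Real.one_le_rpow hy1 (by norm_num)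
  obtain ⟨T, hT⟩ : ∃ T : ℝ, T = H * Real.exp (-L) := ⟨_, rfl⟩
  rw [← hT] at ha1 ⊢
  have hT1 : 1 ≤ T := by
    rw [hT, hHexp, ← Real.exp_add]
    exact Real.one_le_exp (by linarith)
  -- the sign of `a`
  have ha0 : 0 < |(a : ℝ)| := by linarith
  have hane : (a : ℝ) ≠ 0 := abs_pos.1 ha0
  obtain ⟨σ, hσ, hσa⟩ : ∃ σ : ℤ, (σ = 1 ∨ σ = -1) ∧ |(a : ℝ)| = σ * a := by
    rcases le_total 0 (a : ℝ) with h | h
    · exact ⟨1, Or.inl rfl, by rw [abs_of_nonneg h]; simp⟩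
    · exact ⟨-1, Or.inr rfl, by rw [abs_of_nonpos h]; simp⟩
  have hσ2 : σ * σ = 1 := by rcases hσ with rfl | rfl <;> norm_num
  have hσ2' : (σ : ℝ) * σ = 1 := by exact_mod_cast hσ2
  obtain ⟨α, hα⟩ : ∃ α : ℝ, α = |(a : ℝ)| := ⟨_, rfl⟩
  rw [← hα] at ha1 ha2 ha0 hσa
  have hα2 : (a : ℝ) ^ 2 = α ^ 2 := by rw [hα, sq_abs]
  obtain ⟨B, hB⟩ : ∃ B : ℝ, B = (b : ℝ) ^ 2 / (4 * α) := ⟨_, rfl⟩
  obtain ⟨K, hK⟩ : ∃ K : ℤ, K = ⌈B⌉ := ⟨_, rfl⟩
  obtain ⟨s, hs⟩ : ∃ s : ℝ, s = K - B := ⟨_, rfl⟩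
  have hs0 : 0 ≤ s := by
    rw [hs, hK]; linarith [Int.le_ceil B]
  have hs1 : s < 1 := by
    rw [hs, hK]; linarith [Int.ceil_lt_add_one B]
  have hB0 : 0 ≤ B := by rw [hB]; positivity
  have hBle : B ≤ H * Real.exp L / 4 := by
    have e1 : (b : ℝ) ^ 2 ≤ (H : ℝ) ^ 2 := by
      rw [← sq_abs (b : ℝ)]
      exact pow_le_pow_left₀ (abs_nonneg _) hb 2
    rw [hB, div_le_iff₀ (by positivity)]
    have e2 : (H : ℝ) * Real.exp L / 4 * (4 * α) = H * Real.exp L * α := by ring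
    rw [e2]
    calc (b : ℝ) ^ 2 ≤ (H : ℝ) ^ 2 := e1
      _ = H * Real.exp L * T := by
          rw [hT, Real.exp_neg]
          field_simp
      _ ≤ H * Real.exp L * α := by gcongr
  have hexpL : 2 ≤ Real.exp L := by
    have := Real.add_one_le_exp L
    linarith
  -- the parameters `P` and `Q`
  obtain ⟨P, hP⟩ : ∃ P : ℕ, P = ⌈T⌉₊ := ⟨_, rfl⟩
  obtain ⟨Q, hQ⟩ : ∃ Q : ℕ, Q = ⌊(H : ℝ) * Real.exp (3 * L)⌋₊ := ⟨_, rfl⟩
  have hPge : T ≤ P := by rw [hP]; exact Nat.le_ceil _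
  have hPle : (P : ℝ) ≤ T + 1 := by rw [hP]; exact (Nat.ceil_lt_add_one (by linarith)).le
  have hQle : (Q : ℝ) ≤ H * Real.exp (3 * L) := by rw [hQ]; exact Nat.floor_le (by positivity)
  have hsα : 0 < √α := Real.sqrt_pos.2 ha0
  have hamp : ∀ τ : ℝ, |τ| = 1 → ∀ N : ℕ, P ≤ N → N ≤ Q →
      Real.exp (-(3 * L)) ≤ |τ / √α| * (N : ℝ) ^ (1 / 2 : ℝ) ∧
        |τ / √α| * (N : ℝ) ^ (1 / 2 : ℝ) ≤ Real.exp (3 * L) := by
    intro τ hτ N hN1 hN2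
    have hN1' : T ≤ N := hPge.trans (by exact_mod_cast hN1)
    have hN2' : (N : ℝ) ≤ H * Real.exp (3 * L) := le_trans (by exact_mod_cast hN2) hQle
    have e1 : |τ / √α| * (N : ℝ) ^ (1 / 2 : ℝ) = √((N : ℝ) / α) := by
      rw [abs_div, hτ, abs_of_pos hsα, ← Real.sqrt_eq_rpow, Real.sqrt_div (Nat.cast_nonneg N)]
      ring
    rw [e1]
    constructor
    · apply Real.le_sqrt_of_sq_le
      rw [← Real.exp_nat_mul, le_div_iff₀ ha0]
      calc Real.exp (((2 : ℕ) : ℝ) * -(3 * L)) * α ≤ Real.exp (-L) * H :=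
            mul_le_mul (Real.exp_le_exp.2 (by push_cast; linarith)) ha2 ha0.le (Real.exp_pos _).le
        _ = T := by rw [hT]; ring
        _ ≤ N := hN1'
    · rw [Real.sqrt_le_left (Real.exp_pos _).le, ← Real.exp_nat_mul, div_le_iff₀ ha0]
      calc (N : ℝ) ≤ H * Real.exp (3 * L) := hN2'
        _ = Real.exp (4 * L) * T := by
            rw [hT]
            have : Real.exp (3 * L) = Real.exp (4 * L) * Real.exp (-L) := by
              rw [← Real.exp_add]; congr 1; ring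
            rw [this]; ring
        _ ≤ Real.exp (((2 : ℕ) : ℝ) * (3 * L)) * α :=
            mul_le_mul (Real.exp_le_exp.2 (by push_cast; linarith)) ha1 (by linarith)
              (Real.exp_pos _).le
  let S : ℝ → Set ℕ := fun τ => {m : ℕ | P < m ∧ m ≤ Q ∧
    BadW H δ γ ε (-(b : ℝ) / (2 * a) + τ / √α * ((m : ℝ) - s) ^ (1 / 2 : ℝ))}
  have hS : ∀ τ : ℝ, |τ| = 1 → (((S τ).ncard : ℕ) : ℝ) ≤ H * Real.exp (-(2 * L)) := by
    intro τ hτ
    refine hrH (-(b : ℝ) / (2 * a)) (τ / √α) s P Q hHH₁ hs0 hs1 ?_ (by rw [← hT]; exact hPge) hQle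
      (hamp τ hτ)
    have : τ ≠ 0 := by
      rintro rfl
      simp at hτ
    positivity
  have hSfin : ∀ τ : ℝ, (S τ).Finite := fun τ =>
    (Set.finite_Iic Q).subset fun m hm => hm.2.1
  have hsub : {c : ℤ | |(c : ℝ)| ≤ H ∧ ∃ ξ : ℝ, (a : ℝ) * ξ ^ 2 + b * ξ + c = 0 ∧
        BadW H δ γ ε ξ} ⊆ (fun m : ℕ => σ * (K - (m : ℤ))) '' ((Set.Iic P ∪ S 1) ∪ S (-1)) := by
    rintro c ⟨hc, ξ, hξ, hbad⟩
    obtain ⟨m, hm⟩ : ∃ m : ℤ, m = K - σ * c := ⟨_, rfl⟩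
    have hms : (m : ℝ) - s = B - σ * c := by
      rw [hm, hs]; push_cast; ring
    have hsq : (ξ + b / (2 * a)) ^ 2 = ((m : ℝ) - s) / α := by
      rw [hms, hB, eq_div_iff ha0.ne']
      have e1 : α * α = a * a := by nlinarith [hα2]
      have e2 : (σ : ℝ) * α = a := by rw [hσa]; linear_combination (a : ℝ) * hσ2'
      have e3 : (c : ℝ) = -(a * ξ ^ 2 + b * ξ) := by linarith
      rw [e3]
      have e4 : (b : ℝ) ^ 2 / (4 * α) * α = b ^ 2 / 4 := by field_simp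
      have e5 : (ξ + b / (2 * a)) ^ 2 * a ^ 2 = (a * ξ + b / 2) ^ 2 := by field_simp
      have e6 : ((ξ + b / (2 * a)) ^ 2 * α) * α =
          ((b : ℝ) ^ 2 / (4 * α) - σ * -(a * ξ ^ 2 + b * ξ)) * α := by
        calc ((ξ + b / (2 * a)) ^ 2 * α) * α = (ξ + b / (2 * a)) ^ 2 * (α * α) := by ring
          _ = (ξ + b / (2 * a)) ^ 2 * a ^ 2 := by rw [e1]; ring
          _ = (a * ξ + b / 2) ^ 2 := e5
          _ = b ^ 2 / 4 + a * (a * ξ ^ 2 + b * ξ) := by ring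
          _ = ((b : ℝ) ^ 2 / (4 * α) - σ * -(a * ξ ^ 2 + b * ξ)) * α := by
              linear_combination (-1 : ℝ) * e4 - (a * ξ ^ 2 + b * ξ) * e2
      exact mul_right_cancel₀ ha0.ne' e6
    have hms0 : 0 ≤ (m : ℝ) - s := by
      have h1 : 0 ≤ ((m : ℝ) - s) / α := by rw [← hsq]; positivity
      have h2 := mul_nonneg h1 ha0.le
      rwa [div_mul_cancel₀ _ ha0.ne'] at h2
    have hm0 : 0 ≤ m := by
      have : (0 : ℝ) ≤ m := by linarith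
      exact_mod_cast this
    obtain ⟨n, rfl⟩ := Int.eq_ofNat_of_zero_le hm0
    have hnQ : n ≤ Q := by
      rw [hQ]
      apply Nat.le_floor
      have e1 : ((n : ℤ) : ℝ) ≤ B + 1 + H := by
        have e2 : -((σ : ℝ) * c) ≤ H := by
          have : |(σ : ℝ) * c| ≤ H := by
            rw [abs_mul]
            rcases hσ with rfl | rfl <;> simpa using hc
          linarith [neg_le_abs ((σ : ℝ) * c)]
        linarith
      have e3 : ((n : ℤ) : ℝ) = (n : ℝ) := by push_cast; rfl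
      rw [e3] at e1
      have e4 : Real.exp (3 * L) = Real.exp L * Real.exp L * Real.exp L := by
        rw [← Real.exp_add, ← Real.exp_add]; congr 1; ring
      have hH1 : (2 : ℝ) ≤ H := by exact_mod_cast hH2
      have e5 : Real.exp L * 4 ≤ Real.exp L * Real.exp L * Real.exp L := by
        have : (4 : ℝ) ≤ Real.exp L * Real.exp L := by nlinarith
        nlinarith [Real.exp_pos L]
      rw [e4]
      nlinarith [Real.exp_pos L]
    have hroot : ∃ τ : ℝ, (τ = 1 ∨ τ = -1) ∧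
        ξ = -(b : ℝ) / (2 * a) + τ / √α * ((n : ℝ) - s) ^ (1 / 2 : ℝ) := by
      have e3 : (((n : ℤ) : ℤ) : ℝ) = (n : ℝ) := by push_cast; rfl
      have hsq' : (ξ + b / (2 * a)) ^ 2 = ((n : ℝ) - s) / α := by
        rw [hsq]; push_cast; rfl
      have hns0 : 0 ≤ (n : ℝ) - s := by
        have := hms0; push_cast at this; exact this
      have e4 : (1 / √α * ((n : ℝ) - s) ^ (1 / 2 : ℝ)) ^ 2 = ((n : ℝ) - s) / α := by
        rw [← Real.sqrt_eq_rpow, mul_pow, Real.sq_sqrt hns0, div_pow, Real.sq_sqrt ha0.le]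
        ring
      have e5 : (ξ + b / (2 * a)) ^ 2 = (1 / √α * ((n : ℝ) - s) ^ (1 / 2 : ℝ)) ^ 2 := by
        rw [hsq', e4]
      rcases sq_eq_sq_iff_eq_or_eq_neg.1 e5 with h | h
      · refine ⟨1, Or.inl rfl, ?_⟩
        rw [← h]; ring
      · refine ⟨-1, Or.inr rfl, ?_⟩
        have : -1 / √α * ((n : ℝ) - s) ^ (1 / 2 : ℝ) =
            -(1 / √α * ((n : ℝ) - s) ^ (1 / 2 : ℝ)) := by ring
        rw [this, ← h]; ring
    refine ⟨n, ?_, ?_⟩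
    · rcases le_or_gt n P with h | h
      · exact Or.inl (Or.inl h)
      · obtain ⟨τ, hτ, hξτ⟩ := hroot
        rcases hτ with rfl | rfl
        · exact Or.inl (Or.inr ⟨h, hnQ, by rw [← hξτ]; exact hbad⟩)
        · exact Or.inr ⟨h, hnQ, by rw [← hξτ]; exact hbad⟩
    · simp only
      have : (n : ℤ) = K - σ * c := hm
      rw [this]
      linear_combination c * hσ2
  have hfin1 : (Set.Iic P ∪ S 1).Finite := (Set.finite_Iic P).union (hSfin 1)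
  have h1 := Set.ncard_le_ncard hsub ((hfin1.union (hSfin (-1))).image _)
  have h2 := Set.ncard_image_le (f := fun m : ℕ => σ * (K - (m : ℤ))) (hfin1.union (hSfin (-1)))
  have h3 := Set.ncard_union_le (Set.Iic P ∪ S 1) (S (-1))
  have h4 := Set.ncard_union_le (Set.Iic P) (S 1)
  have h5 : (Set.Iic P).ncard = P + 1 := by
    rw [← Finset.coe_Iic, Set.ncard_coe_finset, Nat.card_Iic]
  have h6 : ({c : ℤ | |(c : ℝ)| ≤ H ∧ ∃ ξ : ℝ, (a : ℝ) * ξ ^ 2 + b * ξ + c = 0 ∧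
        BadW H δ γ ε ξ}.ncard) ≤ (P + 1) + (S 1).ncard + (S (-1)).ncard := by
    omega
  have h7 := hS 1 (by simp)
  have h8 := hS (-1) (by simp)
  have h9 : (({c : ℤ | |(c : ℝ)| ≤ H ∧ ∃ ξ : ℝ, (a : ℝ) * ξ ^ 2 + b * ξ + c = 0 ∧
        BadW H δ γ ε ξ}.ncard : ℕ) : ℝ) ≤ ((P : ℝ) + 1) + ((S 1).ncard : ℕ) + ((S (-1)).ncard : ℕ) := by
    exact_mod_cast h6
  have h10 : (H : ℝ) * Real.exp (-(2 * L)) ≤ T := by
    rw [hT]
    exact mul_le_mul_of_nonneg_left (Real.exp_le_exp.2 (by linarith)) hH0.le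
  linarith

end Pool.Agent.Helper478.Shift
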