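import Pool.Agent.Helper478_Shift.Pow

/-!
# Exponential sums over `F (n - s) ^ θ` of large frequency
-/

set_option autoImplicit false

namespace Pool.Agent.Helper478.Shift

open Finset
open Pool.Agent.H469R2.NK (e norm_e e_add e_zero conj_e)
open Pool.Agent.Y957.VK (TT)
open Pool.Agent.Helper478.Surds (tn2)

theorem vkgR : ∃ C : ℕ, ∀ θ : ℝ, -1 ≤ θ → θ < 1 → θ ≠ 0 → ∃ A : ℝ, 0 ≤ A ∧
    ∀ (N R : ℕ) (F κ s : ℝ), 2 ≤ N → R ≤ N → 0 ≤ s → s < 1 → 0 < F → 1 / 2 ≤ κ →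
      (N : ℝ) ^ κ = 12 * F * (N : ℝ) ^ θ →
      ‖∑ n ∈ Ioc 0 R, e (F * ((N : ℝ) + n - s) ^ θ)‖ ≤
        Real.exp ((1 + A) * (C * (1 + κ) ^ C)) * (N : ℝ) ^ (1 - 1 / 10 ^ 10 / (1 + κ) ^ 2 : ℝ) := by
  obtain ⟨C₀, hC₀⟩ := tn2
  refine ⟨13 * C₀ + 24 + 1, ?_⟩
  intro θ h1 h2 h3
  obtain ⟨A, hA, hal⟩ := alp_boundsR θ h1 h2 h3
  refine ⟨A, hA, ?_⟩
  intro N R F κ s hN hR hs0 hs1 hF hκ hNκ
  obtain ⟨r, hr⟩ : ∃ r : ℕ, r = ⌈5 * κ⌉₊ + 5 := ⟨_, rfl⟩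
  obtain ⟨M, hM⟩ : ∃ M : ℕ, M = ⌊(N : ℝ) ^ (2 / 5 : ℝ)⌋₊ := ⟨_, rfl⟩
  have hNr : (2 : ℝ) ≤ N := by exact_mod_cast hN
  have hN0 : (0 : ℝ) < N := by linarith
  have hN1 : (1 : ℝ) ≤ N := by linarith
  have hRN : (R : ℝ) ≤ N := by exact_mod_cast hR
  have hR0 : (0 : ℝ) ≤ R := Nat.cast_nonneg R
  have hM1 : 1 ≤ M := by
    rw [hM, Nat.one_le_floor_iff]
    exact Real.one_le_rpow hN1 (by norm_num)
  have hM0 : (0 : ℝ) < M := by exact_mod_cast hM1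
  have hMle : (M : ℝ) ≤ (N : ℝ) ^ (2 / 5 : ℝ) := by
    rw [hM]; exact Nat.floor_le (by positivity)
  have hM2 : (M : ℝ) ^ 2 ≤ (N : ℝ) ^ (4 / 5 : ℝ) := by
    calc (M : ℝ) ^ 2 ≤ ((N : ℝ) ^ (2 / 5 : ℝ)) ^ 2 := pow_le_pow_left₀ hM0.le hMle 2
      _ = (N : ℝ) ^ (4 / 5 : ℝ) := by
          rw [← Real.rpow_natCast, ← Real.rpow_mul hN0.le]; norm_num
  have hM2N : (M : ℝ) ^ 2 ≤ N := hM2.trans (by
    calc (N : ℝ) ^ (4 / 5 : ℝ) ≤ (N : ℝ) ^ (1 : ℝ) := Real.rpow_le_rpow_of_exponent_le hN1 (by norm_num)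
      _ = N := Real.rpow_one _)
  have hκ1 : (1 : ℝ) ≤ 1 + κ := by linarith
  have hr1 : 5 * κ + 5 ≤ (r : ℝ) := by
    rw [hr]; push_cast
    have := Nat.le_ceil (5 * κ); linarith
  have hr2 : (r : ℝ) ≤ 5 * κ + 6 := by
    rw [hr]; push_cast
    have := Nat.ceil_lt_add_one (a := 5 * κ) (by linarith); linarith
  set c : ℝ := 1 / 10 ^ 10 / (1 + κ) ^ 2 with hc
  have hc0 : 0 < c := by positivity
  have hc1 : c ≤ 1 / 5 := by
    rw [hc, div_le_iff₀ (by positivity)]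
    have : (1 : ℝ) ≤ (1 + κ) ^ 2 := one_le_pow₀ hκ1
    nlinarith
  set X : ℝ := (1 + (A + 12 * (1 + κ))) * (C₀ * (1 + κ) ^ C₀) with hX
  have hX0 : 0 ≤ X := by positivity
  have hin : ∀ n ∈ Ioc 0 R, ‖∑ x ∈ Icc 1 M, ∑ y ∈ Icc 1 M,
      e (F * ((N : ℝ) + ((n + x * y : ℕ) : ℝ) - s) ^ θ)‖ ≤
      (M : ℝ) ^ 2 * (Real.exp X * (N : ℝ) ^ (-c) + 3 * (r + 1) / N) := by
    intro n hn
    rw [mem_Ioc] at hn
    have hn1 : (1 : ℝ) ≤ n := by exact_mod_cast hn.1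
    have hnR : (n : ℝ) ≤ N := le_trans (by exact_mod_cast hn.2) hRN
    obtain ⟨a, ha⟩ : ∃ a : ℝ, a = (N : ℝ) + n - s := ⟨_, rfl⟩
    have hn0 : (N : ℝ) ≤ a := by rw [ha]; linarith
    have hn2 : a ≤ 2 * N := by rw [ha]; linarith
    have e1 : ∀ x y : ℕ, (N : ℝ) + ((n + x * y : ℕ) : ℝ) - s = a + (x : ℝ) * y := fun x y => by
      rw [ha]; push_cast; ring
    simp_rw [e1]
    refine (innerR F θ hF.le h1 h2 a M r (by linarith) (by linarith)).trans ?_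
    have e2 := hC₀ N M r κ (A + 12 * (1 + κ)) (alpR F θ a) hN hκ (by positivity) hr hM
      (fun j hj => hal N r j a F κ hN hn0 hn2 hF hκ hNκ hr hj)
    have e3 : 2 * Real.pi * (F * a ^ θ * (2 * (r + 1) *
        ((M : ℝ) ^ 2 / a) ^ (r + 1))) ≤ 3 * (r + 1) / N := by
      have hnpos : (0 : ℝ) < a := by linarith
      have f1 : F * a ^ θ ≤ (N : ℝ) ^ κ / 6 := by
        have g1 : a ^ θ ≤ 2 * (N : ℝ) ^ θ := by
          have g2 : a = N * (a / N) := by field_simp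
          have g3 : 1 ≤ (a / N) := by rw [le_div_iff₀ hN0]; linarith
          have g4 : (a / N) ≤ 2 := by rw [div_le_iff₀ hN0]; linarith
          rw [g2, Real.mul_rpow hN0.le (by positivity), mul_comm]
          gcongr
          calc (a / N) ^ θ ≤ (a / N) ^ (1 : ℝ) :=
                Real.rpow_le_rpow_of_exponent_le g3 h2.le
            _ = a / N := Real.rpow_one _
            _ ≤ 2 := g4
        calc F * a ^ θ ≤ F * (2 * (N : ℝ) ^ θ) := by gcongr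
          _ = (N : ℝ) ^ κ / 6 := by rw [hNκ]; ring
      have f2 : ((M : ℝ) ^ 2 / a) ^ (r + 1) ≤ (N : ℝ) ^ (-κ - 1) := by
        have g1 : (M : ℝ) ^ 2 / a ≤ (N : ℝ) ^ (-(1 / 5) : ℝ) := by
          calc (M : ℝ) ^ 2 / a ≤ (N : ℝ) ^ (4 / 5 : ℝ) / N := by gcongr
            _ = (N : ℝ) ^ (-(1 / 5) : ℝ) := by
                rw [← Real.rpow_sub_one hN0.ne']; norm_num
        calc ((M : ℝ) ^ 2 / a) ^ (r + 1) ≤ ((N : ℝ) ^ (-(1 / 5) : ℝ)) ^ (r + 1) :=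
              pow_le_pow_left₀ (by positivity) g1 _
          _ = (N : ℝ) ^ (-(1 / 5) * (r + 1) : ℝ) := by
              rw [← Real.rpow_natCast, ← Real.rpow_mul hN0.le]; push_cast; ring_nf
          _ ≤ (N : ℝ) ^ (-κ - 1) := Real.rpow_le_rpow_of_exponent_le hN1 (by linarith)
      have f3 : (N : ℝ) ^ κ * (N : ℝ) ^ (-κ - 1) = 1 / N := by
        rw [← Real.rpow_add hN0]
        have : κ + (-κ - 1) = -1 := by ring
        rw [this, Real.rpow_neg_one, one_div]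
      have hpi4 := Real.pi_le_four
      calc 2 * Real.pi * (F * a ^ θ * (2 * (r + 1) *
            ((M : ℝ) ^ 2 / a) ^ (r + 1))) ≤
            2 * Real.pi * ((N : ℝ) ^ κ / 6 * (2 * (r + 1) * (N : ℝ) ^ (-κ - 1))) := by gcongr
        _ = (2 * Real.pi / 3) * (r + 1) * ((N : ℝ) ^ κ * (N : ℝ) ^ (-κ - 1)) := by ring
        _ ≤ 3 * (r + 1) * ((N : ℝ) ^ κ * (N : ℝ) ^ (-κ - 1)) := by
            gcongr
            linarith
        _ = 3 * (r + 1) / N := by rw [f3]; ring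
    have e4 : (M : ℝ) ^ 2 * (2 * Real.pi * (F * a ^ θ * (2 * (r + 1) *
        ((M : ℝ) ^ 2 / a) ^ (r + 1)))) ≤ (M : ℝ) ^ 2 * (3 * (r + 1) / N) := by gcongr
    rw [← hc, ← hX] at e2
    calc _ ≤ Real.exp X * (M : ℝ) ^ 2 * (N : ℝ) ^ (-c) + (M : ℝ) ^ 2 * (3 * (r + 1) / N) :=
          add_le_add e2 e4
      _ = _ := by ring
  have hsh := Pool.Agent.Helper478.Bases.shift (fun n : ℕ => e (F * ((N : ℝ) + n - s) ^ θ))
    (fun n => (norm_e _).le) R M hM1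
  refine hsh.trans ?_
  have hsum := sum_le_sum hin
  rw [sum_const, Nat.card_Ioc, Nat.sub_zero, nsmul_eq_mul] at hsum
  have hNc : (N : ℝ) * (N : ℝ) ^ (-c) = (N : ℝ) ^ (1 - c) := by
    rw [sub_eq_add_neg, Real.rpow_add hN0, Real.rpow_one]
  have hN1c : 1 ≤ (N : ℝ) ^ (1 - c) := Real.one_le_rpow hN1 (by linarith)
  have hM2c : (M : ℝ) ^ 2 ≤ (N : ℝ) ^ (1 - c) :=
    hM2.trans (Real.rpow_le_rpow_of_exponent_le hN1 (by linarith))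
  have hXbd : X + 24 * (1 + κ) ≤ (1 + A) * ((13 * C₀ + 24 + 1 : ℕ) * (1 + κ) ^ (13 * C₀ + 24 + 1)) := by
    have f1 : 1 + (A + 12 * (1 + κ)) ≤ (1 + A) * (13 * (1 + κ)) := by nlinarith
    have f2 : X ≤ (1 + A) * (13 * (1 + κ)) * (C₀ * (1 + κ) ^ C₀) := by
      rw [hX]; gcongr
    have f3 : (1 + κ) * (1 + κ) ^ C₀ ≤ (1 + κ) ^ (13 * C₀ + 24 + 1) := by
      rw [← pow_succ']; exact pow_le_pow_right₀ hκ1 (by omega)
    have f4 : (1 + κ) ≤ (1 + κ) ^ (13 * C₀ + 24 + 1) := by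
      calc (1 + κ) = (1 + κ) ^ 1 := (pow_one _).symm
        _ ≤ _ := pow_le_pow_right₀ hκ1 (by omega)
    have f5 : X ≤ (1 + A) * (13 * C₀ * (1 + κ) ^ (13 * C₀ + 24 + 1)) := by
      calc X ≤ (1 + A) * (13 * (1 + κ)) * (C₀ * (1 + κ) ^ C₀) := f2
        _ = (1 + A) * (13 * C₀ * ((1 + κ) * (1 + κ) ^ C₀)) := by ring
        _ ≤ _ := by gcongr
    have f6 : 24 * (1 + κ) ≤ (1 + A) * (24 * (1 + κ) ^ (13 * C₀ + 24 + 1)) := by
      have : 0 ≤ A * (24 * (1 + κ) ^ (13 * C₀ + 24 + 1)) := by positivity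
      nlinarith
    have f7 : (1 + A) * ((13 * C₀ + 24 + 1 : ℕ) * (1 + κ) ^ (13 * C₀ + 24 + 1)) =
        (1 + A) * (13 * C₀ * (1 + κ) ^ (13 * C₀ + 24 + 1)) +
        (1 + A) * (24 * (1 + κ) ^ (13 * C₀ + 24 + 1)) + (1 + A) * (1 + κ) ^ (13 * C₀ + 24 + 1) := by
      push_cast; ring
    rw [f7]
    have : 0 ≤ (1 + A) * (1 + κ) ^ (13 * C₀ + 24 + 1) := by positivity
    linarith
  calc 1 / (M : ℝ) ^ 2 * ∑ n ∈ Ioc 0 R, ‖∑ x ∈ Icc 1 M, ∑ y ∈ Icc 1 M,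
        e (F * ((N : ℝ) + ((n + x * y : ℕ) : ℝ) - s) ^ θ)‖ + 2 * (M : ℝ) ^ 2 ≤
        1 / (M : ℝ) ^ 2 * (R * ((M : ℝ) ^ 2 * (Real.exp X * (N : ℝ) ^ (-c) + 3 * (r + 1) / N))) +
        2 * (M : ℝ) ^ 2 := by
        apply add_le_add _ le_rfl
        exact mul_le_mul_of_nonneg_left hsum (by positivity)
    _ = R * (Real.exp X * (N : ℝ) ^ (-c) + 3 * (r + 1) / N) + 2 * (M : ℝ) ^ 2 := by field_simp
    _ ≤ N * (Real.exp X * (N : ℝ) ^ (-c) + 3 * (r + 1) / N) + 2 * (N : ℝ) ^ (1 - c) := by gcongr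
    _ = Real.exp X * (N : ℝ) ^ (1 - c) + 3 * (r + 1) + 2 * (N : ℝ) ^ (1 - c) := by
        rw [← hNc]; field_simp
    _ ≤ Real.exp X * (N : ℝ) ^ (1 - c) + (21 * (1 + κ)) * (N : ℝ) ^ (1 - c) +
        2 * (N : ℝ) ^ (1 - c) := by
        have : 3 * ((r : ℝ) + 1) ≤ 21 * (1 + κ) := by linarith
        nlinarith
    _ = (Real.exp X + (21 * (1 + κ) + 2)) * (N : ℝ) ^ (1 - c) := by ring
    _ ≤ Real.exp (X + 24 * (1 + κ)) * (N : ℝ) ^ (1 - c) := by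
        apply mul_le_mul_of_nonneg_right _ (by linarith)
        have f1 : 1 ≤ Real.exp X := Real.one_le_exp hX0
        have f2 : 24 * (1 + κ) + 1 ≤ Real.exp (24 * (1 + κ)) := Real.add_one_le_exp _
        rw [Real.exp_add]
        nlinarith
    _ ≤ _ := by
        apply mul_le_mul_of_nonneg_right _ (by linarith)
        exact Real.exp_le_exp.2 hXbd

end Pool.Agent.Helper478.Shift
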