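import Pool.Agent.Helper478_Shift.Fin

/-!
# All points up to about `H`
-/

set_option autoImplicit false

namespace Pool.Agent.Helper478.Shift

open Finset Filter
open Pool.Agent.Helper478.Surds (ev_pow EquiW)

/-- `ξ` has a bad window of digits, in some base `r` and for the scale `H` -/
def BadW (H δ γ ε ξ : ℝ) : Prop :=
  ∃ r u v : ℕ, 2 ≤ r ∧ (Real.log H) ^ (1 - γ) ≤ (v : ℝ) - u ∧ v * Real.log r ≤ (Real.log H) ^ (1 + γ) ∧
    H ^ δ ≤ (r : ℝ) ^ u ∧ ¬ EquiW ξ r u v ε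

/-- sum over dyadic ranges -/
lemma dyadic (p : ℕ → Prop) (P : ℕ) (E : ℝ) (hE : 0 ≤ E) (hP : 1 ≤ P) (Q₀ : ℕ)
    (h : ∀ N : ℕ, P ≤ N → N ≤ Q₀ → (({m : ℕ | N < m ∧ m ≤ 2 * N ∧ p m}.ncard : ℕ) : ℝ) ≤ N * E) :
    ∀ Q : ℕ, Q ≤ Q₀ → (({m : ℕ | P < m ∧ m ≤ Q ∧ p m}.ncard : ℕ) : ℝ) ≤ 3 * Q * E := by
  intro Q
  induction Q using Nat.strong_induction_on with
  | _ Q ih =>
    intro hQ
    rcases le_or_gt Q P with hQP | hQP
    · have : {m : ℕ | P < m ∧ m ≤ Q ∧ p m} = ∅ := by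
        ext m
        simp only [Set.mem_setOf_eq, Set.mem_empty_iff_false, iff_false]
        omega
      rw [this, Set.ncard_empty]
      simp only [Nat.cast_zero]
      positivity
    · have hQ0 : (0 : ℝ) < Q := by exact_mod_cast (by omega : 0 < Q)
      rcases lt_or_ge ((Q + 1) / 2) P with h1 | h1
      · have hsub : {m : ℕ | P < m ∧ m ≤ Q ∧ p m} ⊆ {m : ℕ | P < m ∧ m ≤ 2 * P ∧ p m} := by
          rintro m ⟨a1, a2, a3⟩
          exact ⟨a1, by omega, a3⟩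
        have hfin : {m : ℕ | P < m ∧ m ≤ 2 * P ∧ p m}.Finite :=
          (Set.finite_Iic (2 * P)).subset fun m hm => hm.2.1
        have h2 : (({m : ℕ | P < m ∧ m ≤ Q ∧ p m}.ncard : ℕ) : ℝ) ≤
            (({m : ℕ | P < m ∧ m ≤ 2 * P ∧ p m}.ncard : ℕ) : ℝ) := by
          exact_mod_cast Set.ncard_le_ncard hsub hfin
        have h3 := h P le_rfl (by omega)
        have h4 : (P : ℝ) * E ≤ 3 * Q * E := by
          apply mul_le_mul_of_nonneg_right _ hE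
          have : (P : ℝ) ≤ Q := by exact_mod_cast hQP.le
          linarith
        linarith
      · obtain ⟨N, hN⟩ : ∃ N : ℕ, N = (Q + 1) / 2 := ⟨_, rfl⟩
        rw [← hN] at h1
        have hsub : {m : ℕ | P < m ∧ m ≤ Q ∧ p m} ⊆ {m : ℕ | P < m ∧ m ≤ N ∧ p m} ∪
            {m : ℕ | N < m ∧ m ≤ 2 * N ∧ p m} := by
          rintro m ⟨a1, a2, a3⟩
          rcases le_or_gt m N with h2 | h2
          · exact Or.inl ⟨a1, h2, a3⟩
          · exact Or.inr ⟨h2, by omega, a3⟩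
        have hfin1 : {m : ℕ | P < m ∧ m ≤ N ∧ p m}.Finite :=
          (Set.finite_Iic N).subset fun m hm => hm.2.1
        have hfin2 : {m : ℕ | N < m ∧ m ≤ 2 * N ∧ p m}.Finite :=
          (Set.finite_Iic (2 * N)).subset fun m hm => hm.2.1
        have h2 : (({m : ℕ | P < m ∧ m ≤ Q ∧ p m}.ncard : ℕ) : ℝ) ≤
            (({m : ℕ | P < m ∧ m ≤ N ∧ p m}.ncard : ℕ) : ℝ) +
            (({m : ℕ | N < m ∧ m ≤ 2 * N ∧ p m}.ncard : ℕ) : ℝ) := by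
          exact_mod_cast (Set.ncard_le_ncard hsub (hfin1.union hfin2)).trans (Set.ncard_union_le _ _)
        have h3 := ih N (by omega) (by omega)
        have h4 := h N h1 (by omega)
        have h5 : (2 * N : ℝ) ≤ Q + 1 := by exact_mod_cast (by omega : 2 * N ≤ Q + 1)
        have h6 : (2 : ℝ) ≤ Q := by exact_mod_cast (by omega : 2 ≤ Q)
        have h7 : (4 * (N : ℝ)) * E ≤ 3 * Q * E := by
          apply mul_le_mul_of_nonneg_right _ hE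
          linarith
        linarith

/-- all points between `H exp (- (log H) ^ (2 / 5))` and `H exp (3 (log H) ^ (2 / 5))` -/
theorem rangeH : ∃ γ : ℝ, 0 < γ ∧ γ ≤ 1 / 20 ∧ ∀ θ : ℝ, -1 ≤ θ → θ < 1 → θ ≠ 0 →
    ∀ δ : ℝ, 0 < δ → ∀ ε : ℝ, 0 < ε → ∃ H₀ : ℕ, ∀ (H : ℕ) (c x s : ℝ) (P Q : ℕ), H₀ ≤ H →
      0 ≤ s → s < 1 → x ≠ 0 → H * Real.exp (-(Real.log H) ^ (2 / 5 : ℝ)) ≤ P →
      (Q : ℝ) ≤ H * Real.exp (3 * (Real.log H) ^ (2 / 5 : ℝ)) →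
      (∀ N : ℕ, P ≤ N → N ≤ Q → Real.exp (-(3 * (Real.log H) ^ (2 / 5 : ℝ))) ≤ |x| * (N : ℝ) ^ θ ∧
        |x| * (N : ℝ) ^ θ ≤ Real.exp (3 * (Real.log H) ^ (2 / 5 : ℝ))) →
      (({m : ℕ | P < m ∧ m ≤ Q ∧ BadW H δ γ ε (c + x * ((m : ℝ) - s) ^ θ)}.ncard : ℕ) : ℝ) ≤
        H * Real.exp (-(2 * (Real.log H) ^ (2 / 5 : ℝ))) := by
  obtain ⟨γ₀, hγ0, hγ1, hsurds⟩ := surdsR
  refine ⟨γ₀ / 2, by positivity, by linarith, ?_⟩
  intro θ h1 h2 h3 δ hδ ε hε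
  obtain ⟨N₀, hN₀⟩ := hsurds θ h1 h2 h3 (δ / 2) (by positivity) ε hε
  have ev1 : ∀ᶠ y : ℝ in atTop, 8 * y ^ (2 / 5 : ℝ) ≤ y ^ (1 : ℝ) := ev_pow _ _ _ (by norm_num)
  have ev2 : ∀ᶠ y : ℝ in atTop, 2 * y ^ (1 - γ₀) ≤ y ^ (1 - γ₀ / 2) := ev_pow _ _ _ (by linarith)
  have ev3 : ∀ᶠ y : ℝ in atTop, 4 * y ^ (1 + γ₀ / 2) ≤ y ^ (1 + γ₀) := ev_pow _ _ _ (by linarith)
  have ev4 : ∀ᶠ y : ℝ in atTop, ((3 + 3 * δ / 2) * (2 / δ)) * y ^ (2 / 5 : ℝ) ≤ y ^ (1 : ℝ) :=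
    ev_pow _ _ _ (by norm_num)
  have ev5 : ∀ᶠ y : ℝ in atTop, 16 * y ^ (2 / 5 : ℝ) ≤ y ^ (1 / 2 : ℝ) := ev_pow _ _ _ (by norm_num)
  have ev6 : ∀ᶠ y : ℝ in atTop, 2 * Real.log (N₀ + 1) ≤ y := eventually_ge_atTop _
  have hlog : Tendsto (fun N : ℕ => Real.log N) atTop atTop :=
    Real.tendsto_log_atTop.comp tendsto_natCast_atTop_atTop
  have hev := hlog.eventually ((ev1.and ev2).and ((ev3.and ev4).and ((ev5.and ev6).and
    (eventually_ge_atTop 10))))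
  obtain ⟨H₀, hH₀⟩ := eventually_atTop.1 (hev.and (eventually_ge_atTop 2))
  refine ⟨H₀, ?_⟩
  intro H c x s P Q hH hs0 hs1 hx hP hQ hamp
  obtain ⟨⟨⟨q1, q2⟩, ⟨q3, q4⟩, ⟨q5, q6⟩, q7⟩, q8⟩ := hH₀ H hH
  obtain ⟨y, hy⟩ : ∃ y : ℝ, y = Real.log H := ⟨_, rfl⟩
  have hH0 : (0 : ℝ) < H := by exact_mod_cast (by omega : 0 < H)
  have hHexp : (H : ℝ) = Real.exp y := by rw [hy, Real.exp_log hH0]
  rw [← hy] at q1 q2 q3 q4 q5 q6 q7 hP hQ hamp ⊢
  obtain ⟨L, hL⟩ : ∃ L : ℝ, L = y ^ (2 / 5 : ℝ) := ⟨_, rfl⟩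
  rw [← hL] at q1 q4 q5 hP hQ hamp ⊢
  rw [Real.rpow_one] at q1 q4
  have hy0 : 0 < y := by linarith
  have hy1 : 1 ≤ y := by linarith
  have hL1 : 1 ≤ L := by rw [hL]; exact Real.one_le_rpow hy1 (by norm_num)
  have hP0 : (0 : ℝ) < P := lt_of_lt_of_le (by positivity) hP
  have hP1 : 1 ≤ P := by exact_mod_cast hP0
  have hlogN : ∀ N : ℕ, P ≤ N → N ≤ Q → y - L ≤ Real.log N ∧ Real.log N ≤ y + 3 * L := by
    intro N hN1 hN2
    have hN0 : (0 : ℝ) < N := lt_of_lt_of_le hP0 (by exact_mod_cast hN1)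
    constructor
    · rw [Real.le_log_iff_exp_le hN0, sub_eq_add_neg, Real.exp_add, ← hHexp]
      exact hP.trans (by exact_mod_cast hN1)
    · rw [Real.log_le_iff_le_exp hN0, Real.exp_add, ← hHexp]
      exact le_trans (by exact_mod_cast hN2) hQ
  have hmain : ∀ N : ℕ, P ≤ N → N ≤ Q → (({m : ℕ | N < m ∧ m ≤ 2 * N ∧
      BadW H δ (γ₀ / 2) ε (c + x * ((m : ℝ) - s) ^ θ)}.ncard : ℕ) : ℝ) ≤ N * Real.exp (-(8 * L)) := by
    intro N hN1 hN2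
    obtain ⟨l1, l2⟩ := hlogN N hN1 hN2
    obtain ⟨m1, m2⟩ := hamp N hN1 hN2
    have hN0 : (0 : ℝ) < N := lt_of_lt_of_le hP0 (by exact_mod_cast hN1)
    have hNexp : (N : ℝ) = Real.exp (Real.log N) := (Real.exp_log hN0).symm
    have hl1 : y / 2 ≤ Real.log N := by linarith
    have hl2 : Real.log N ≤ 2 * y := by linarith
    have hl0 : 0 < Real.log N := by linarith
    have hNN₀ : N₀ ≤ N := by
      have e1 : Real.log (N₀ + 1) ≤ Real.log N := by linarith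
      have e2 : (N₀ : ℝ) + 1 ≤ N := (Real.log_le_log_iff (by positivity) hN0).1 e1
      have e3 : (N₀ : ℝ) ≤ N := by linarith
      exact_mod_cast e3
    have hxN : |x| * (N : ℝ) ^ θ ≤ N := by
      refine m2.trans ?_
      rw [hNexp]
      exact Real.exp_le_exp.2 (by linarith)
    have hb := hN₀ N c x s hNN₀ hs0 hs1 hx hxN
    have hsub : {m : ℕ | N < m ∧ m ≤ 2 * N ∧ BadW H δ (γ₀ / 2) ε (c + x * ((m : ℝ) - s) ^ θ)} ⊆
        (fun n => N + n) '' {n : ℕ | 1 ≤ n ∧ n ≤ N ∧ ∃ b u v : ℕ, 2 ≤ b ∧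
        (Real.log N) ^ (1 - γ₀) ≤ (v : ℝ) - u ∧
        v * Real.log b ≤ (Real.log N) ^ (1 + γ₀) ∧ (N : ℝ) ^ (δ / 2) ≤ (b : ℝ) ^ u * (|x| * (N : ℝ) ^ θ) ∧
        ¬ EquiW (c + x * ((N : ℝ) + n - s) ^ θ) b u v ε} := by
      rintro m ⟨a1, a2, r, u, v, hr, a3, a4, a5, a6⟩
      rw [← hy] at a3 a4
      have hcast : (N : ℝ) + ((m - N : ℕ) : ℝ) = m := by
        rw [Nat.cast_sub a1.le]; ring
      refine ⟨m - N, ⟨by omega, by omega, r, u, v, hr, ?_, ?_, ?_, ?_⟩, by simp only; omega⟩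
      · calc (Real.log N) ^ (1 - γ₀) ≤ (2 * y) ^ (1 - γ₀) := by
              apply Real.rpow_le_rpow hl0.le hl2 (by linarith)
          _ = 2 ^ (1 - γ₀) * y ^ (1 - γ₀) := by rw [Real.mul_rpow (by norm_num) hy0.le]
          _ ≤ 2 * y ^ (1 - γ₀) := by
              apply mul_le_mul_of_nonneg_right _ (by positivity)
              calc (2 : ℝ) ^ (1 - γ₀) ≤ 2 ^ (1 : ℝ) :=
                    Real.rpow_le_rpow_of_exponent_le (by norm_num) (by linarith)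
                _ = 2 := Real.rpow_one 2
          _ ≤ y ^ (1 - γ₀ / 2) := q2
          _ ≤ _ := a3
      · calc v * Real.log r ≤ y ^ (1 + γ₀ / 2) := a4
          _ ≤ y ^ (1 + γ₀) / 4 := by linarith
          _ ≤ (y / 2) ^ (1 + γ₀) := by
              rw [Real.div_rpow hy0.le (by norm_num)]
              apply div_le_div_of_nonneg_left (by positivity) (by positivity)
              calc (2 : ℝ) ^ (1 + γ₀) ≤ 2 ^ (2 : ℝ) :=
                    Real.rpow_le_rpow_of_exponent_le (by norm_num) (by linarith)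
                _ = 4 := by norm_num
          _ ≤ (Real.log N) ^ (1 + γ₀) := Real.rpow_le_rpow (by positivity) hl1 (by linarith)
      · have e1 : (H : ℝ) ^ δ * Real.exp (-(3 * L)) ≤ (r : ℝ) ^ u * (|x| * (N : ℝ) ^ θ) := by
          gcongr
        refine le_trans ?_ e1
        rw [Real.rpow_def_of_pos hN0, Real.rpow_def_of_pos hH0, ← hy, ← Real.exp_add, Real.exp_le_exp]
        have e2 := mul_le_mul_of_nonneg_right q4 (by positivity : 0 ≤ δ / 2)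
        have e3 : (3 + 3 * δ / 2) * (2 / δ) * L * (δ / 2) = (3 + 3 * δ / 2) * L := by field_simp
        rw [e3] at e2
        have e4 : Real.log N * (δ / 2) ≤ (y + 3 * L) * (δ / 2) :=
          mul_le_mul_of_nonneg_right l2 (by positivity)
        linarith
      · rw [hcast]
        exact a6
    have hfin : {n : ℕ | 1 ≤ n ∧ n ≤ N ∧ ∃ b u v : ℕ, 2 ≤ b ∧
        (Real.log N) ^ (1 - γ₀) ≤ (v : ℝ) - u ∧
        v * Real.log b ≤ (Real.log N) ^ (1 + γ₀) ∧ (N : ℝ) ^ (δ / 2) ≤ (b : ℝ) ^ u * (|x| * (N : ℝ) ^ θ) ∧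
        ¬ EquiW (c + x * ((N : ℝ) + n - s) ^ θ) b u v ε}.Finite :=
      (Set.finite_Iic N).subset fun m hm => hm.2.1
    have h4 := (Set.ncard_le_ncard hsub (hfin.image _)).trans (Set.ncard_image_le hfin)
    have h5 : (({m : ℕ | N < m ∧ m ≤ 2 * N ∧
      BadW H δ (γ₀ / 2) ε (c + x * ((m : ℝ) - s) ^ θ)}.ncard : ℕ) : ℝ) ≤
        N * Real.exp (-√(Real.log N)) := le_trans (by exact_mod_cast h4) hb
    refine h5.trans ?_
    apply mul_le_mul_of_nonneg_left _ hN0.le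
    apply Real.exp_le_exp.2
    have e1 : y ^ (1 / 2 : ℝ) / 2 ≤ √(Real.log N) := by
      rw [← Real.sqrt_eq_rpow]
      apply Real.le_sqrt_of_sq_le
      rw [div_pow, Real.sq_sqrt hy0.le]
      linarith
    linarith
  have hd := dyadic (fun m => BadW H δ (γ₀ / 2) ε (c + x * ((m : ℝ) - s) ^ θ)) P (Real.exp (-(8 * L)))
    (Real.exp_pos _).le hP1 Q hmain Q le_rfl
  refine hd.trans ?_
  have h3 : (3 : ℝ) ≤ Real.exp 2 := by
    have h3 : Real.exp 2 = Real.exp 1 * Real.exp 1 := by rw [← Real.exp_add]; norm_num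
    have h4 := Real.exp_one_gt_d9
    rw [h3]; nlinarith
  calc 3 * (Q : ℝ) * Real.exp (-(8 * L)) ≤
        Real.exp 2 * (H * Real.exp (3 * L)) * Real.exp (-(8 * L)) := by gcongr
    _ = H * Real.exp (2 + 3 * L + -(8 * L)) := by
        rw [Real.exp_add, Real.exp_add]; ring
    _ ≤ H * Real.exp (-(2 * L)) := by
        apply mul_le_mul_of_nonneg_left _ hH0.le
        apply Real.exp_le_exp.2
        linarith

end Pool.Agent.Helper478.Shift
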